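import Pool.Agent.Run7.h322.Main

/-!
# The division algebra
-/

namespace Run7.h322

open MvPolynomial

/-- The field of rational functions in the entries of the generic matrix. -/
abbrev Om := FractionRing R

lemma inj_aux (t : G → ZMod 4) (π : Equiv.Perm G) :
    Function.Injective ((algebraMap R Om).comp (act t π).toRingHom) := by
  intro x y h
  exact act_injective t π (IsFractionRing.injective R Om h)

/-- The action on the field of rational functions. -/
noncomputable def actK (t : G → ZMod 4) (π : Equiv.Perm G) : Om →+* Om :=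
  IsFractionRing.lift (inj_aux t π)

lemma actK_algebraMap (t : G → ZMod 4) (π : Equiv.Perm G) (P : R) :
    actK t π (algebraMap R Om P) = algebraMap R Om (act t π P) :=
  IsFractionRing.lift_algebraMap _ _

/-- constants -/
noncomputable def cst : ℂ →+* Om := (algebraMap R Om).comp C

lemma actK_cst (t : G → ZMod 4) (π : Equiv.Perm G) (c : ℂ) : actK t π (cst c) = cst c := by
  rw [cst, RingHom.comp_apply, actK_algebraMap, act_C]

/-- the fixed field -/
noncomputable def FF : Subfield Om where
  carrier := {x | ∀ t π, actK t π x = x}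
  mul_mem' := by
    intro a b ha hb t π
    rw [map_mul, ha, hb]
  one_mem' := by
    intro t π
    rw [map_one]
  add_mem' := by
    intro a b ha hb t π
    rw [map_add, ha, hb]
  zero_mem' := by
    intro t π
    rw [map_zero]
  neg_mem' := by
    intro a ha t π
    rw [map_neg, ha]
  inv_mem' := by
    intro a ha t π
    rw [map_inv₀, ha]

lemma mem_FF {x : Om} : x ∈ FF ↔ ∀ t π, actK t π x = x := Iff.rfl

lemma cst_mul_cst (a b : ZMod 4) : cst (io a) * cst (io b) = cst (io (a + b)) := by
  rw [← map_mul, ← io_add]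

lemma cst_ne_zero (a : ZMod 4) : cst (io a) ≠ 0 := by
  rw [Ne, map_eq_zero_iff _ (RingHom.injective cst)]
  exact io_ne_zero a

/-- the algebra -/
noncomputable def DD : Subalgebra FF (Matrix G G Om) where
  carrier := {A | ∀ t π h h', actK t π (A h h') = cst (io (t h - t h')) * A (π h) (π h')}
  mul_mem' := by
    intro A B hA hB t π h h'
    rw [Matrix.mul_apply, Matrix.mul_apply, map_sum, Finset.mul_sum,
      ← Equiv.sum_comp π (fun j => cst (io (t h - t h')) * (A (π h) j * B j (π h')))]
    apply Finset.sum_congr rfl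
    intro j _
    rw [map_mul, hA, hB]
    have : cst (io (t h - t h')) = cst (io (t h - t j)) * cst (io (t j - t h')) := by
      rw [cst_mul_cst]
      congr 2
      ring
    rw [this]
    ring
  add_mem' := by
    intro A B hA hB t π h h'
    rw [Matrix.add_apply, Matrix.add_apply, map_add, hA, hB, mul_add]
  algebraMap_mem' := by
    intro r t π h h'
    rw [Matrix.algebraMap_matrix_apply, Matrix.algebraMap_matrix_apply]
    by_cases hh : h = h'
    · subst hh
      rw [if_pos rfl, if_pos rfl, sub_self, io_zero, map_one, one_mul]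
      exact r.2 t π
    · rw [if_neg hh, if_neg (fun h0 => hh (π.injective h0)), map_zero, mul_zero]

lemma mem_DD {A : Matrix G G Om} : A ∈ DD ↔
    ∀ t π h h', actK t π (A h h') = cst (io (t h - t h')) * A (π h) (π h') := Iff.rfl

/-- generic entries -/
noncomputable def z (h h' : G) : Om := algebraMap R Om (X (h, h'))

lemma z_ne_zero (h h' : G) : z h h' ≠ 0 := by
  rw [z, Ne, map_eq_zero_iff _ (IsFractionRing.injective R Om)]
  exact X_ne_zero _

lemma z_inj {a b c d : G} (h : z a b = z c d) : (a, b) = (c, d) :=
  X_injective (IsFractionRing.injective R Om h)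

lemma act_z (t : G → ZMod 4) (π : Equiv.Perm G) (h h' : G) :
    actK t π (z h h') = cst (io (t h - t h')) * z (π h) (π h') := by
  rw [z, actK_algebraMap, act_X, map_mul]
  rfl

/-- a numbering -/
noncomputable def en : Fin 8 ≃ G := (Fintype.equivFinOfCardEq (by simp [G])).symm

/-- the Vandermonde matrix of the diagonal entries -/
noncomputable def W : Matrix (Fin 8) (Fin 8) Om := Matrix.vandermonde (fun i => z (en i) (en i))

lemma W_det : IsUnit W.det := by
  rw [isUnit_iff_ne_zero, W, Matrix.det_vandermonde_ne_zero_iff]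
  intro i j h
  have := z_inj h
  exact en.injective (congrArg Prod.fst this)

lemma W_apply (h : G) (i : Fin 8) : W (en.symm h) i = z h h ^ (i : ℕ) := by
  rw [W, Matrix.vandermonde_apply, Equiv.apply_symm_apply]

lemma act_W (t : G → ZMod 4) (π : Equiv.Perm G) (h : G) (i : Fin 8) :
    actK t π (W (en.symm h) i) = W (en.symm (π h)) i := by
  rw [W_apply, W_apply, map_pow, act_z, sub_self, io_zero, map_one, one_mul]

/-- the basic parametrisation -/
noncomputable def Lmat (c : Matrix (Fin 8) (Fin 8) Om) : Matrix G G Om :=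
  fun h h' => z h h' * (W * c * W.transpose) (en.symm h) (en.symm h')

noncomputable def quo (A : Matrix G G Om) : Matrix (Fin 8) (Fin 8) Om :=
  fun a b => A (en a) (en b) / z (en a) (en b)

noncomputable def Linv (A : Matrix G G Om) : Matrix (Fin 8) (Fin 8) Om :=
  W⁻¹ * quo A * (W.transpose)⁻¹

lemma WT_det : IsUnit W.transpose.det := by
  rw [Matrix.det_transpose]
  exact W_det

lemma Linv_Lmat (c : Matrix (Fin 8) (Fin 8) Om) : Linv (Lmat c) = c := by
  have h1 : quo (Lmat c) = W * c * W.transpose := by
    funext a b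
    rw [quo, Lmat, Equiv.symm_apply_apply, Equiv.symm_apply_apply]
    field_simp [z_ne_zero (en a) (en b)]
  rw [Linv, h1, Matrix.mul_assoc, Matrix.mul_assoc, Matrix.mul_assoc,
    Matrix.mul_nonsing_inv _ WT_det, Matrix.mul_one, ← Matrix.mul_assoc,
    Matrix.nonsing_inv_mul _ W_det, Matrix.one_mul]

lemma Lmat_Linv (A : Matrix G G Om) : Lmat (Linv A) = A := by
  funext h h'
  rw [Lmat, Linv, Matrix.mul_assoc, Matrix.mul_assoc, Matrix.mul_assoc,
    Matrix.nonsing_inv_mul _ WT_det, Matrix.mul_one, ← Matrix.mul_assoc,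
    Matrix.mul_nonsing_inv _ W_det, Matrix.one_mul]
  show z h h' * (A (en (en.symm h)) (en (en.symm h')) / z (en (en.symm h)) (en (en.symm h'))) = _
  rw [Equiv.apply_symm_apply, Equiv.apply_symm_apply]
  field_simp [z_ne_zero h h']

lemma Lmat_injective : Function.Injective Lmat :=
  Function.LeftInverse.injective Linv_Lmat

lemma act_Lmat (t : G → ZMod 4) (π : Equiv.Perm G) (c : Matrix (Fin 8) (Fin 8) Om) (h h' : G) :
    actK t π (Lmat c h h') = cst (io (t h - t h')) * Lmat (c.map (actK t π)) (π h) (π h') := by
  rw [Lmat, Lmat, map_mul, act_z, mul_assoc]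
  congr 2
  simp only [Matrix.mul_apply, Matrix.transpose_apply, Matrix.map_apply, map_sum, map_mul, act_W]

lemma Lmat_add (c d : Matrix (Fin 8) (Fin 8) Om) : Lmat (c + d) = Lmat c + Lmat d := by
  funext h h'
  rw [Matrix.add_apply, Lmat, Lmat, Lmat, Matrix.mul_add, Matrix.add_mul, Matrix.add_apply,
    mul_add]

lemma Lmat_smul (r : Om) (c : Matrix (Fin 8) (Fin 8) Om) : Lmat (r • c) = r • Lmat c := by
  funext h h'
  rw [Matrix.smul_apply, Lmat, Lmat, Matrix.mul_smul, Matrix.smul_mul, Matrix.smul_apply,
    smul_eq_mul, smul_eq_mul]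
  ring

lemma Lmat_mem (c : Matrix (Fin 8) (Fin 8) FF) : Lmat (c.map (algebraMap FF Om)) ∈ DD := by
  intro t π h h'
  rw [act_Lmat]
  congr 2
  ext i j
  rw [Matrix.map_apply, Matrix.map_apply]
  exact (c i j).2 t π

/-- the parametrisation of the algebra -/
noncomputable def L : Matrix (Fin 8) (Fin 8) FF →ₗ[FF] DD where
  toFun c := ⟨Lmat (c.map (algebraMap FF Om)), Lmat_mem c⟩
  map_add' c d := by
    apply Subtype.ext
    show Lmat ((c + d).map (algebraMap FF Om)) = _
    rw [Matrix.map_add _ (map_add _), Lmat_add]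
    rfl
  map_smul' r c := by
    apply Subtype.ext
    show Lmat ((r • c).map (algebraMap FF Om)) = _
    have h1 : (r • c).map (algebraMap FF Om) = (r : Om) • c.map (algebraMap FF Om) := by
      ext i j
      rfl
    rw [h1, Lmat_smul]
    rfl

lemma L_injective : Function.Injective L := by
  intro c d h
  have h1 := congrArg Subtype.val h
  have h2 := Lmat_injective h1
  ext i j
  exact congrFun (congrFun h2 i) j

lemma L_surjective : Function.Surjective L := by
  rintro ⟨A, hA⟩
  have hfix : ∀ t π, (Linv A).map (actK t π) = Linv A := by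
    intro t π
    apply Lmat_injective
    rw [Lmat_Linv]
    funext h h'
    have h1 := act_Lmat t π (Linv A) (π.symm h) (π.symm h')
    rw [Lmat_Linv, hA, Equiv.apply_symm_apply, Equiv.apply_symm_apply] at h1
    exact (mul_left_cancel₀ (cst_ne_zero _) h1).symm
  refine ⟨fun i j => ⟨Linv A i j, fun t π => congrFun (congrFun (hfix t π) i) j⟩, ?_⟩
  apply Subtype.ext
  exact Lmat_Linv A

/-- the parametrisation as an equivalence -/
noncomputable def Lequiv : Matrix (Fin 8) (Fin 8) FF ≃ₗ[FF] DD :=
  LinearEquiv.ofBijective L ⟨L_injective, L_surjective⟩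

lemma finrank_DD : Module.finrank FF DD = 8 ^ 2 := by
  rw [← Lequiv.finrank_eq, Module.finrank_matrix]
  simp

instance : Module.Finite FF DD := Module.Finite.equiv Lequiv

end Run7.h322
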