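import Mathlib

/-!
# Vertices and edges of a finite set of points

`p : α → (ι → ℝ)` is an injective family of points, `S` a finite set of indices.
A vertex of `S` is an index exposed by a linear functional.
-/

namespace Run7.h322

open Filter Topology

variable {ι α : Type*} [Fintype ι]

/-- `v` is the unique maximiser over `S` of some linear functional. -/
def IsVtx (p : α → (ι → ℝ)) (S : Finset α) (v : α) : Prop :=
  v ∈ S ∧ ∃ ν : ι → ℝ, ∀ m ∈ S, m ≠ v → ν ⬝ᵥ p m < ν ⬝ᵥ p v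

lemma eventually_pos {a b : ℝ} (h : 0 < a ∨ (a = 0 ∧ 0 < b)) :
    ∀ᶠ ε in 𝓝[>] (0 : ℝ), 0 < a + ε * b := by
  rcases h with h | ⟨rfl, h⟩
  · have hc : ContinuousAt (fun ε : ℝ => a + ε * b) 0 := by fun_prop
    have : ∀ᶠ ε in 𝓝 (0 : ℝ), 0 < a + ε * b := by
      apply hc.eventually (lt_mem_nhds _)
      simpa using h
    exact this.filter_mono nhdsWithin_le_nhds
  · filter_upwards [self_mem_nhdsWithin] with ε hε
    have : (0 : ℝ) < ε := hε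
    simpa using mul_pos this h

lemma eventually_ne {a b : ℝ} (h : a ≠ 0) :
    ∀ᶠ ε in 𝓝[>] (0 : ℝ), a + ε * b ≠ 0 := by
  have hc : ContinuousAt (fun ε : ℝ => a + ε * b) 0 := by fun_prop
  have : ∀ᶠ ε in 𝓝 (0 : ℝ), a + ε * b ≠ 0 := by
    apply hc.eventually_ne
    simpa using h
  exact this.filter_mono nhdsWithin_le_nhds

lemma perturb (U : Finset (ι → ℝ)) (ν : ι → ℝ) (hU : ∀ u ∈ U, 0 < ν ⬝ᵥ u)
    (B : Finset (ι → ℝ)) (hB : ∀ b ∈ B, b ≠ 0) :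
    ∃ ν' : ι → ℝ, (∀ u ∈ U, 0 < ν' ⬝ᵥ u) ∧ ∀ b ∈ B, ν' ⬝ᵥ b ≠ 0 := by
  classical
  induction B using Finset.induction_on with
  | empty => exact ⟨ν, hU, by simp⟩
  | insert b B hb ih =>
    obtain ⟨μ, hμU, hμB⟩ := ih (fun c hc => hB c (Finset.mem_insert_of_mem hc))
    have hb0 : b ≠ 0 := hB b (Finset.mem_insert_self _ _)
    have hbb : 0 < b ⬝ᵥ b := by
      have h1 : 0 ≤ b ⬝ᵥ b := by
        simp only [dotProduct]
        exact Finset.sum_nonneg fun i _ => mul_self_nonneg _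
      have h2 : b ⬝ᵥ b ≠ 0 := by
        rw [Ne, dotProduct_self_eq_zero]
        exact hb0
      exact lt_of_le_of_ne h1 (Ne.symm h2)
    have e1 : ∀ᶠ ε in 𝓝[>] (0 : ℝ), ∀ u ∈ U, 0 < μ ⬝ᵥ u + ε * (b ⬝ᵥ u) := by
      rw [Filter.eventually_all_finset]
      intro u hu
      exact eventually_pos (Or.inl (hμU u hu))
    have e2 : ∀ᶠ ε in 𝓝[>] (0 : ℝ), ∀ c ∈ B, μ ⬝ᵥ c + ε * (b ⬝ᵥ c) ≠ 0 := by
      rw [Filter.eventually_all_finset]
      intro c hc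
      exact eventually_ne (hμB c hc)
    have e3 : ∀ᶠ ε in 𝓝[>] (0 : ℝ), μ ⬝ᵥ b + ε * (b ⬝ᵥ b) ≠ 0 := by
      by_cases h : μ ⬝ᵥ b = 0
      · filter_upwards [eventually_pos (Or.inr ⟨h, hbb⟩)] with ε hε
        exact hε.ne'
      · exact eventually_ne h
    obtain ⟨ε, h1, h2, h3⟩ := (e1.and (e2.and e3)).exists
    refine ⟨μ + ε • b, ?_, ?_⟩
    · intro u hu
      simpa [add_dotProduct, smul_dotProduct] using h1 u hu
    · intro c hc
      rw [Finset.mem_insert] at hc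
      rcases hc with rfl | hc
      · simpa [add_dotProduct, smul_dotProduct] using h3
      · simpa [add_dotProduct, smul_dotProduct] using h2 c hc

/-- Every face contains a vertex. -/
lemma exists_vtx (p : α → (ι → ℝ)) (hp : Function.Injective p) (S : Finset α)
    (hS : S.Nonempty) (ν : ι → ℝ) :
    ∃ v, IsVtx p S v ∧ ∀ m ∈ S, ν ⬝ᵥ p m ≤ ν ⬝ᵥ p v := by
  classical
  obtain ⟨v0, hv0, hmax0⟩ := S.exists_max_image (fun m => ν ⬝ᵥ p m) hS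
  have hF : (S.filter (fun m => ν ⬝ᵥ p m = ν ⬝ᵥ p v0)).Nonempty :=
    ⟨v0, by simp [hv0]⟩
  obtain ⟨v, hv, hmax⟩ := Finset.exists_max_image _ (fun m => p m ⬝ᵥ p m) hF
  rw [Finset.mem_filter] at hv
  obtain ⟨hvS, hvν⟩ := hv
  have hle : ∀ m ∈ S, ν ⬝ᵥ p m ≤ ν ⬝ᵥ p v := by
    intro m hm
    rw [hvν]
    exact hmax0 m hm
  refine ⟨v, ⟨hvS, ?_⟩, hle⟩
  have e1 : ∀ᶠ ε in 𝓝[>] (0 : ℝ), ∀ m ∈ S, m ≠ v →
      0 < (ν ⬝ᵥ p v - ν ⬝ᵥ p m) + ε * (p v ⬝ᵥ p v - p v ⬝ᵥ p m) := by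
    rw [Filter.eventually_all_finset]
    intro m hm
    by_cases hmv : m = v
    · simp [hmv]
    · have : ∀ᶠ ε in 𝓝[>] (0 : ℝ),
        0 < (ν ⬝ᵥ p v - ν ⬝ᵥ p m) + ε * (p v ⬝ᵥ p v - p v ⬝ᵥ p m) := by
        apply eventually_pos
        by_cases h : ν ⬝ᵥ p m = ν ⬝ᵥ p v
        · right
          refine ⟨by rw [h, sub_self], ?_⟩
          have h1 : p m ⬝ᵥ p m ≤ p v ⬝ᵥ p v := by
            apply hmax m
            rw [Finset.mem_filter]
            exact ⟨hm, by rw [h, hvν]⟩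
          have h2 : 0 < (p v - p m) ⬝ᵥ (p v - p m) := by
            have h3 : 0 ≤ (p v - p m) ⬝ᵥ (p v - p m) := by
              simp only [dotProduct]
              exact Finset.sum_nonneg fun i _ => mul_self_nonneg _
            have h4 : (p v - p m) ⬝ᵥ (p v - p m) ≠ 0 := by
              rw [Ne, dotProduct_self_eq_zero, sub_eq_zero]
              exact fun h => hmv (hp h.symm)
            exact lt_of_le_of_ne h3 (Ne.symm h4)
          rw [sub_dotProduct, dotProduct_sub, dotProduct_sub, dotProduct_comm (p m) (p v)] at h2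
          linarith
        · left
          have := lt_of_le_of_ne (hle m hm) h
          linarith
      filter_upwards [this] with ε hε _
      exact hε
  obtain ⟨ε, hε⟩ := e1.exists
  refine ⟨ν + ε • p v, ?_⟩
  intro m hm hmv
  have := hε m hm hmv
  simp only [add_dotProduct, smul_dotProduct, smul_eq_mul]
  linarith

/-- If vertices of both colours occur, then some functional is maximised by vertices of both
colours and its whole face is collinear. -/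
lemma exists_edge (p : α → (ι → ℝ)) (hp : Function.Injective p) (S : Finset α)
    (c : α → Prop) (v₀ v₁ : α) (h₀ : IsVtx p S v₀) (h₁ : IsVtx p S v₁) (hc₀ : c v₀)
    (hc₁ : ¬ c v₁) :
    ∃ (ν : ι → ℝ) (v v' : α), IsVtx p S v ∧ IsVtx p S v' ∧ c v ∧ ¬ c v' ∧
      (∀ m ∈ S, ν ⬝ᵥ p m ≤ ν ⬝ᵥ p v) ∧ ν ⬝ᵥ p v' = ν ⬝ᵥ p v ∧
      ∀ m ∈ S, ν ⬝ᵥ p m = ν ⬝ᵥ p v → ∃ r : ℝ, p m - p v = r • (p v' - p v) := by
  classical
  obtain ⟨hv₀, ν₀', hν₀'⟩ := h₀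
  obtain ⟨hv₁, ν₁', hν₁'⟩ := h₁
  -- generic `ν₁`
  obtain ⟨ν₁, hν₁a, hν₁b⟩ := perturb ((S.erase v₁).image (fun m => p v₁ - p m)) ν₁'
    (by
      intro u hu
      rw [Finset.mem_image] at hu
      obtain ⟨m, hm, rfl⟩ := hu
      rw [Finset.mem_erase] at hm
      rw [dotProduct_sub]
      have := hν₁' m hm.2 hm.1
      linarith)
    (((S ×ˢ S).filter (fun x => x.1 ≠ x.2)).image (fun x => p x.1 - p x.2))
    (by
      intro u hu
      rw [Finset.mem_image] at hu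
      obtain ⟨x, hx, rfl⟩ := hu
      rw [Finset.mem_filter] at hx
      rw [sub_ne_zero]
      exact fun h => hx.2 (hp h))
  have hν₁c : ∀ m ∈ S, m ≠ v₁ → ν₁ ⬝ᵥ p m < ν₁ ⬝ᵥ p v₁ := by
    intro m hm hne
    have := hν₁a (p v₁ - p m) (Finset.mem_image.2 ⟨m, Finset.mem_erase.2 ⟨hne, hm⟩, rfl⟩)
    rw [dotProduct_sub] at this
    linarith
  have hν₁d : ∀ m ∈ S, ∀ m' ∈ S, m ≠ m' → ν₁ ⬝ᵥ (p m - p m') ≠ 0 := by
    intro m hm m' hm' hne
    exact hν₁b _ (Finset.mem_image.2 ⟨(m, m'), Finset.mem_filter.2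
      ⟨Finset.mem_product.2 ⟨hm, hm'⟩, hne⟩, rfl⟩)
  -- generic `ν₀`
  let w : α → α → α → (ι → ℝ) := fun a b m =>
    (ν₁ ⬝ᵥ (p m - p a)) • (p b - p a) - (ν₁ ⬝ᵥ (p b - p a)) • (p m - p a)
  obtain ⟨ν₀, hν₀a, hν₀b⟩ := perturb ((S.erase v₀).image (fun m => p v₀ - p m)) ν₀'
    (by
      intro u hu
      rw [Finset.mem_image] at hu
      obtain ⟨m, hm, rfl⟩ := hu
      rw [Finset.mem_erase] at hm
      rw [dotProduct_sub]
      have := hν₀' m hm.2 hm.1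
      linarith)
    (((S ×ˢ (S ×ˢ S)).image (fun x => w x.1 x.2.1 x.2.2)).filter (fun u => u ≠ 0))
    (by
      intro u hu
      rw [Finset.mem_filter] at hu
      exact hu.2)
  have hν₀c : ∀ m ∈ S, m ≠ v₀ → ν₀ ⬝ᵥ p m < ν₀ ⬝ᵥ p v₀ := by
    intro m hm hne
    have := hν₀a (p v₀ - p m) (Finset.mem_image.2 ⟨m, Finset.mem_erase.2 ⟨hne, hm⟩, rfl⟩)
    rw [dotProduct_sub] at this
    linarith
  have hν₀d : ∀ a ∈ S, ∀ b ∈ S, ∀ m ∈ S, w a b m ≠ 0 → ν₀ ⬝ᵥ (w a b m) ≠ 0 := by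
    intro a ha b hb m hm hne
    exact hν₀b _ (Finset.mem_filter.2 ⟨Finset.mem_image.2 ⟨(a, b, m), Finset.mem_product.2
      ⟨ha, Finset.mem_product.2 ⟨hb, hm⟩⟩, rfl⟩, hne⟩)
  -- the path
  let ν : ℝ → (ι → ℝ) := fun s => (1 - s) • ν₀ + s • ν₁
  have hνs : ∀ s x, ν s ⬝ᵥ x = (1 - s) * (ν₀ ⬝ᵥ x) + s * (ν₁ ⬝ᵥ x) := by
    intro s x
    simp [ν, add_dotProduct, smul_dotProduct]
  have hcont : ∀ x, Continuous (fun s => ν s ⬝ᵥ x) := by
    intro x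
    simp only [hνs]
    fun_prop
  let T : (α → Prop) → Set ℝ := fun d =>
    ⋃ v ∈ S.filter (fun v => IsVtx p S v ∧ d v), ⋂ m ∈ S, {s | ν s ⬝ᵥ p m ≤ ν s ⬝ᵥ p v}
  have hTclosed : ∀ d, IsClosed (T d) := by
    intro d
    apply isClosed_biUnion_finset
    intro v _
    apply isClosed_biInter
    intro m _
    exact isClosed_le (hcont _) (hcont _)
  have hTmem : ∀ d s, s ∈ T d ↔ ∃ v, IsVtx p S v ∧ d v ∧ ∀ m ∈ S, ν s ⬝ᵥ p m ≤ ν s ⬝ᵥ p v := by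
    intro d s
    simp only [T, Set.mem_iUnion, Set.mem_iInter, Finset.mem_filter, Set.mem_ofPred_eq,
      exists_prop]
    constructor
    · rintro ⟨v, ⟨_, h2, h3⟩, h4⟩
      exact ⟨v, h2, h3, h4⟩
    · rintro ⟨v, h2, h3, h4⟩
      exact ⟨v, ⟨h2.1, h2, h3⟩, h4⟩
  have hcover : Set.Icc (0 : ℝ) 1 ⊆ T c ∪ T (fun v => ¬ c v) := by
    intro s _
    obtain ⟨v, hv, hmax⟩ := exists_vtx p hp S ⟨v₀, hv₀⟩ (ν s)
    by_cases h : c v
    · left
      exact (hTmem _ _).2 ⟨v, hv, h, hmax⟩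
    · right
      exact (hTmem _ _).2 ⟨v, hv, h, hmax⟩
  have h0 : (Set.Icc (0 : ℝ) 1 ∩ T c).Nonempty := by
    refine ⟨0, by simp, (hTmem _ _).2 ⟨v₀, ⟨hv₀, ν₀', hν₀'⟩, hc₀, ?_⟩⟩
    intro m hm
    simp only [hνs]
    by_cases h : m = v₀
    · rw [h]
    · have := hν₀c m hm h
      linarith
  have h1 : (Set.Icc (0 : ℝ) 1 ∩ T (fun v => ¬ c v)).Nonempty := by
    refine ⟨1, by simp, (hTmem _ _).2 ⟨v₁, ⟨hv₁, ν₁', hν₁'⟩, hc₁, ?_⟩⟩
    intro m hm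
    simp only [hνs]
    by_cases h : m = v₁
    · rw [h]
    · have := hν₁c m hm h
      linarith
  obtain ⟨s, hs, hsT, hsT'⟩ := isPreconnected_closed_iff.1 isPreconnected_Icc _ _
    (hTclosed c) (hTclosed _) hcover h0 h1
  obtain ⟨v, hv, hcv, hvmax⟩ := (hTmem _ _).1 hsT
  obtain ⟨v', hv', hcv', hvmax'⟩ := (hTmem _ _).1 hsT'
  have hvv' : v ≠ v' := by
    rintro rfl
    exact hcv' hcv
  have heq : ν s ⬝ᵥ p v' = ν s ⬝ᵥ p v := le_antisymm (hvmax _ hv'.1) (hvmax' _ hv.1)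
  refine ⟨ν s, v, v', hv, hv', hcv, hcv', hvmax, heq, ?_⟩
  intro m hm hmeq
  have hs1 : 1 - s ≠ 0 := by
    intro h
    have hs1 : s = 1 := by linarith
    rw [hs1] at heq
    simp only [hνs] at heq
    have h3 := hν₁d v' hv'.1 v hv.1 hvv'.symm
    rw [dotProduct_sub] at h3
    apply h3
    linarith
  have hd2 : ν s ⬝ᵥ (p v' - p v) = 0 := by rw [dotProduct_sub, heq, sub_self]
  have hd3 : ν s ⬝ᵥ (p m - p v) = 0 := by rw [dotProduct_sub, hmeq, sub_self]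
  have hw : w v v' m = 0 := by
    by_contra hne
    have h3 := hν₀d v hv.1 v' hv'.1 m hm hne
    have h4 : ν s ⬝ᵥ (w v v' m) = 0 := by
      simp only [w, dotProduct_sub, dotProduct_smul, smul_eq_mul] at hd2 hd3 ⊢
      rw [hd2, hd3]
      ring
    have h5 : ν₁ ⬝ᵥ (w v v' m) = 0 := by
      simp only [w, dotProduct_sub, dotProduct_smul, smul_eq_mul]
      ring
    rw [hνs, h5, mul_zero, add_zero] at h4
    rcases mul_eq_zero.1 h4 with h | h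
    · exact hs1 h
    · exact h3 h
  have hne := hν₁d v' hv'.1 v hv.1 hvv'.symm
  refine ⟨(ν₁ ⬝ᵥ (p m - p v)) / (ν₁ ⬝ᵥ (p v' - p v)), ?_⟩
  have hw' : (ν₁ ⬝ᵥ (p m - p v)) • (p v' - p v) = (ν₁ ⬝ᵥ (p v' - p v)) • (p m - p v) :=
    sub_eq_zero.1 hw
  rw [div_eq_inv_mul, mul_smul, hw', smul_smul, inv_mul_cancel₀ hne, one_smul]

end Run7.h322
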