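import Pool.Agent.Run7.h322.Flag
import Pool.Agent.Run7.h322.Polytope

/-!
# Coefficient matrices
-/

namespace Run7.h322

open MvPolynomial

abbrev E := G × G →₀ ℕ

/-- matrix of coefficients at `m` -/
noncomputable def cm (M : Matrix G G R) (m : E) : Matrix G G ℂ := fun h h' => coeff m (M h h')

lemma cm_apply (M : Matrix G G R) (m : E) (h h' : G) : cm M m h h' = coeff m (M h h') := rfl

lemma cm_mul (M M' : Matrix G G R) (n : E) :
    cm (M * M') n = ∑ x ∈ Finset.HasAntidiagonal.antidiagonal n, cm M x.1 * cm M' x.2 := by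
  classical
  ext h h'
  rw [cm_apply, Matrix.mul_apply, coeff_sum, Matrix.sum_apply]
  simp only [coeff_mul, Matrix.mul_apply, cm_apply]
  rw [Finset.sum_comm]

/-- the support -/
noncomputable def supp (M : Matrix G G R) : Finset E := by
  classical
  exact Finset.univ.biUnion fun h => Finset.univ.biUnion fun h' => (M h h').support

lemma mem_supp {M : Matrix G G R} {m : E} : m ∈ supp M ↔ cm M m ≠ 0 := by
  classical
  simp only [supp, Finset.mem_biUnion, Finset.mem_univ, true_and, MvPolynomial.mem_support_iff]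
  constructor
  · rintro ⟨h, h', hh⟩ h0
    apply hh
    rw [← cm_apply, h0, Matrix.zero_apply]
  · intro h0
    by_contra hcon
    push Not at hcon
    apply h0
    ext h h'
    rw [cm_apply, hcon h h', Matrix.zero_apply]

lemma supp_nonempty {M : Matrix G G R} (hM : M ≠ 0) : (supp M).Nonempty := by
  by_contra h
  rw [Finset.not_nonempty_iff_eq_empty] at h
  apply hM
  ext h1 h2 m
  have : m ∉ supp M := by rw [h]; simp
  rw [mem_supp, not_not] at this
  rw [← cm_apply, this]
  simp

/-- Equivariance in flag coordinates. -/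
structure FEqv (M : Matrix G G R) : Prop where
  trans : ∀ (k h h' : G) (m : E), io (Finsupp.weight (lam k) m) * cm M m h h' =
    io (TT k h - TT k h') * cm M m (h + k) (h' + k)
  char : ∀ (w h h' : G) (m : E), io (Finsupp.weight (kap w) m) * cm M m h h' =
    io (pr w h - pr w h') * cm M m h h'

lemma Eqv.feqv {N : Matrix G G R} (hN : Eqv N) : FEqv (N.map Psi) where
  trans := by
    intro k h h' m
    rw [cm_apply, cm_apply, Matrix.map_apply, Matrix.map_apply, ← coeff_sc, ← Psi_act_trans, hN,
      map_mul, Psi_C, coeff_C_mul]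
    rfl
  char := by
    intro w h h' m
    rw [cm_apply, Matrix.map_apply, ← coeff_sc, ← Psi_act_char, hN,
      map_mul, Psi_C, coeff_C_mul]
    rfl

lemma map_weight {σ M M' : Type*} [AddCommMonoid M] [AddCommMonoid M'] (f : M →+ M')
    (w : σ → M) (m : σ →₀ ℕ) :
    f (Finsupp.weight w m) = Finsupp.weight (fun i => f (w i)) m := by
  simp [Finsupp.weight_apply, Finsupp.sum, map_sum, map_nsmul]

/-- the pattern of an exponent -/
noncomputable def bar (m : E) : G := Finsupp.weight (fun i : G × G => i.1) m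

/-- the last character of an exponent -/
noncomputable def uu (m : E) : ZMod 2 := Finsupp.weight (fun i : G × G => i.2.2.2) m

lemma bar_add (m n : E) : bar (m + n) = bar m + bar n := map_add _ _ _

lemma uu_add (m n : E) : uu (m + n) = uu m + uu n := map_add _ _ _

lemma weight_kap (w : G) (m : E) : Finsupp.weight (kap w) m = pr w (bar m) :=
  (map_weight (prHom w) (fun i : G × G => i.1) m).symm

lemma weight_lam_e3 (m : E) : Finsupp.weight (lam e3) m = dbl (uu m) := by
  have h1 : lam e3 = fun i => dblHom (i.2.2.2) := by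
    funext i
    simp only [lam, el_e3, pr_e3, zero_add]
    rfl
  rw [h1]
  exact (map_weight dblHom (fun i : G × G => i.2.2.2) m).symm

lemma two_weight_lam (k : G) (m : E) :
    Finsupp.weight (lam k) m + Finsupp.weight (lam k) m = 2 * el k (bar m) := by
  have h1 : (2 * el k (bar m)) = elHom k (bar m) := rfl
  rw [h1, bar, map_weight]
  simp only [Finsupp.weight_apply, Finsupp.sum]
  rw [← Finset.sum_add_distrib]
  apply Finset.sum_congr rfl
  intro i _
  have h2 : ∀ a b : G, pr a b + pr a b = 0 := by decide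
  rw [← smul_add]
  congr 1
  simp only [lam]
  have h3 : elHom k i.1 = 2 * el k i.1 := rfl
  rw [h3]
  linear_combination h2 i.2 k

variable {M M' : Matrix G G R}

lemma FEqv.pattern (hM : FEqv M) {m : E} {h h' : G} (hne : cm M m h h' ≠ 0) :
    h + h' = bar m := by
  symm
  apply pr_inj
  intro w
  have h1 := hM.char w h h' m
  have h2 := io_injective (mul_right_cancel₀ hne h1)
  rw [weight_kap] at h2
  rw [h2, pr_add_right]
  have h3 : ∀ a b : G, pr a b = - pr a b := by decide
  have h4 := h3 w h'
  rw [sub_eq_add_neg, ← h4]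

lemma FEqv.pattern' (hM : FEqv M) {m : E} {h h' : G} (hne : cm M m h h' ≠ 0) :
    h' = h + bar m := by
  rw [← hM.pattern hne, ← add_assoc, G_add_self, zero_add]

lemma FEqv.zero_of (hM : FEqv M) {m : E} {h h' : G} (hne : h' ≠ h + bar m) :
    cm M m h h' = 0 := by
  by_contra h0
  exact hne (hM.pattern' h0)

lemma FEqv.ne_zero (hM : FEqv M) {m : E} (hm : cm M m ≠ 0) (h : G) :
    cm M m h (h + bar m) ≠ 0 := by
  have h1 : ∃ a b, cm M m a b ≠ 0 := by
    by_contra hcon
    push Not at hcon
    apply hm
    ext a b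
    rw [hcon a b, Matrix.zero_apply]
  obtain ⟨a, b, hab⟩ := h1
  have hb := hM.pattern' hab
  subst hb
  have h2 := hM.trans (a + h) a (a + bar m) m
  have h3 : a + (a + h) = h := by rw [← add_assoc, G_add_self, zero_add]
  have h4 : a + bar m + (a + h) = h + bar m := by
    rw [add_add_add_comm, G_add_self, zero_add, add_comm]
  rw [h3, h4] at h2
  intro h0
  rw [h0, mul_zero] at h2
  rcases mul_eq_zero.1 h2 with h5 | h5
  · exact io_ne_zero _ h5
  · exact hab h5

lemma mul_entry (hM : FEqv M) (m : E) (C : Matrix G G ℂ) (h h' : G) :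
    (cm M m * C) h h' = cm M m h (h + bar m) * C (h + bar m) h' := by
  rw [Matrix.mul_apply]
  apply Finset.sum_eq_single
  · intro b _ hb
    rw [hM.zero_of hb, zero_mul]
  · simp

/-- Products of nonzero coefficient matrices are nonzero. -/
lemma FEqv.mul_ne_zero (hM : FEqv M) (hM' : FEqv M') {m m' : E} (hm : cm M m ≠ 0)
    (hm' : cm M' m' ≠ 0) : cm M m * cm M' m' ≠ 0 := by
  intro h0
  have h1 := congrFun (congrFun h0 0) (0 + bar m + bar m')
  rw [mul_entry hM, Matrix.zero_apply] at h1
  rcases mul_eq_zero.1 h1 with h2 | h2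
  · exact hM.ne_zero hm 0 h2
  · exact hM'.ne_zero hm' _ h2

/-- The product of nonzero equivariant matrices is nonzero. -/
theorem FEqv.mul_ne_zero' (hM : FEqv M) (hM' : FEqv M') (h : M ≠ 0) (h' : M' ≠ 0) :
    M * M' ≠ 0 := by
  classical
  obtain ⟨a, ha, b, hb, hab⟩ := UniqueSums.uniqueAdd_of_nonempty (supp_nonempty h)
    (supp_nonempty h')
  intro h0
  have h1 : cm (M * M') (a + b) = cm M a * cm M' b := by
    rw [cm_mul]
    rw [Finset.sum_eq_single (a, b)]
    · rintro ⟨x, y⟩ hxy hne
      rw [Finset.HasAntidiagonal.mem_antidiagonal] at hxy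
      simp only at hxy ⊢
      by_cases hx : x ∈ supp M
      · by_cases hy : y ∈ supp M'
        · obtain ⟨rfl, rfl⟩ := hab hx hy hxy
          exact absurd rfl hne
        · rw [mem_supp, not_not] at hy
          rw [hy, mul_zero]
      · rw [mem_supp, not_not] at hx
        rw [hx, zero_mul]
    · intro hn
      rw [Finset.HasAntidiagonal.mem_antidiagonal] at hn
      exact absurd rfl hn
  apply hM.mul_ne_zero hM' (mem_supp.1 ha) (mem_supp.1 hb)
  rw [← h1, h0]
  ext h h'
  simp [cm_apply]

/-- The third generator of the flag. -/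
lemma FEqv.e3_rel (hM : FEqv M) (m : E) (h h' : G) :
    io (dbl (uu m)) * cm M m h h' = cm M m (h + e3) (h' + e3) := by
  have := hM.trans e3 h h' m
  rwa [weight_lam_e3, TT_e3, TT_e3, sub_self, io_zero, one_mul] at this

lemma decide_e3 : ∀ g : G, (∀ k : G, 2 * el k g = 0) → g = 0 ∨ g = e3 := by decide

/-- A coefficient matrix with nonzero scalar square has pattern `0` or `e3`. -/
lemma FEqv.bar_of_sq (hM : FEqv M) {v : E} (hv : cm M v ≠ 0) {c : ℂ}
    (hc : cm M v * cm M v = Matrix.scalar G c) : bar v = 0 ∨ bar v = e3 := by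
  apply decide_e3
  intro k
  rw [← two_weight_lam]
  apply io_injective
  rw [io_zero, io_add]
  have hA := hM.ne_zero hv 0
  have hB := hM.ne_zero hv (0 + bar v)
  have e0 : (0 : G) + bar v + bar v = 0 := by rw [G_add_add_self]
  rw [e0] at hB
  rw [zero_add] at hA hB
  have h1 := hM.trans k 0 (bar v) v
  have h2 := hM.trans k (bar v) 0 v
  have h3 := congrFun (congrFun hc 0) 0
  rw [mul_entry hM] at h3
  have h4 := congrFun (congrFun hc k) k
  rw [mul_entry hM] at h4
  simp only [Matrix.scalar_apply, Matrix.diagonal_apply_eq, zero_add] at h3 h4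
  simp only [zero_add] at h1 h2
  rw [add_comm (bar v) k] at h1 h2
  apply mul_right_cancel₀ (_root_.mul_ne_zero hA hB)
  have h5 : io (TT k 0 - TT k (bar v)) * io (TT k (bar v) - TT k 0) = 1 := by
    rw [← io_add]
    have : TT k 0 - TT k (bar v) + (TT k (bar v) - TT k 0) = 0 := by ring
    rw [this, io_zero]
  calc io (Finsupp.weight (lam k) v) * io (Finsupp.weight (lam k) v) *
        (cm M v 0 (bar v) * cm M v (bar v) 0)
      = (io (Finsupp.weight (lam k) v) * cm M v 0 (bar v)) *
        (io (Finsupp.weight (lam k) v) * cm M v (bar v) 0) := by ring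
    _ = (io (TT k 0 - TT k (bar v)) * io (TT k (bar v) - TT k 0)) *
        (cm M v k (k + bar v) * cm M v (k + bar v) k) := by rw [h1, h2]; ring
    _ = 1 * (cm M v 0 (bar v) * cm M v (bar v) 0) := by rw [h5, h4, h3]

end Run7.h322
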