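import Pool.Agent.Run7.h322.Coeff

/-!
# Vertices of the Newton polytope of a square root of a scalar
-/

namespace Run7.h322

open MvPolynomial

/-- exponent as real vector -/
noncomputable def vec (m : E) : G × G → ℝ := fun i => (m i : ℝ)

lemma vec_injective : Function.Injective vec := by
  intro m n h
  ext i
  have := congrFun h i
  simpa [vec] using this

lemma vec_add (m n : E) : vec (m + n) = vec m + vec n := by
  funext i
  simp [vec]

/-- `M` is a flag-equivariant matrix whose square is the scalar `f`. -/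
structure Sq (M : Matrix G G R) (f : R) : Prop where
  eq : FEqv M
  eq2 : FEqv (M * M)
  sq : M * M = Matrix.scalar G f

abbrev QQ := G × ZMod 2

lemma QQ_add_self : ∀ x : QQ, x + x = 0 := by decide

/-- the full colour of an exponent -/
noncomputable def qq (m : E) : QQ := Finsupp.weight (fun i : G × G => (i.1, i.2.2.2)) m

lemma qq_fst (m : E) : (qq m).1 = bar m :=
  map_weight (AddMonoidHom.fst G (ZMod 2)) (fun i : G × G => (i.1, i.2.2.2)) m

lemma qq_snd (m : E) : (qq m).2 = uu m :=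
  map_weight (AddMonoidHom.snd G (ZMod 2)) (fun i : G × G => (i.1, i.2.2.2)) m

lemma qq_add (m n : E) : qq (m + n) = qq m + qq n := map_add _ _ _

lemma qq_eq_zero {m : E} : qq m = 0 ↔ bar m = 0 ∧ uu m = 0 := by
  rw [← qq_fst, ← qq_snd]
  constructor
  · intro h; rw [h]; exact ⟨rfl, rfl⟩
  · rintro ⟨h1, h2⟩
    exact Prod.ext h1 h2

lemma even_zsmul (k : ℤ) (x : QQ) : (k + k) • x = 0 := by
  rw [add_zsmul]
  exact QQ_add_self _

lemma parity_line {m v v' : E} {r : ℝ} (h : vec m - vec v = r • (vec v' - vec v))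
    (hv : qq v = 0) (hv' : qq v' ≠ 0) : qq m = 0 ∨ qq m = qq v' := by
  have hne : ∃ i, v' i ≠ v i := by
    by_contra hcon
    push Not at hcon
    apply hv'
    have : v' = v := Finsupp.ext hcon
    rw [this, hv]
  obtain ⟨i₀, hi₀⟩ := hne
  have hB : ((v' i₀ : ℤ) - (v i₀ : ℤ)) ≠ 0 := by
    intro h0
    apply hi₀
    omega
  obtain ⟨a', b', hab⟩ : ∃ a' b' : ℤ, (¬ (Even a' ∧ Even b')) ∧
      ∀ i, b' * ((m i : ℤ) - (v i : ℤ)) = a' * ((v' i : ℤ) - (v i : ℤ)) := by
    obtain ⟨g, a', b', hg, hco, hA, hB'⟩ : ∃ (g a' b' : ℤ), g ≠ 0 ∧ IsCoprime a' b' ∧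
        (m i₀ : ℤ) - (v i₀ : ℤ) = g * a' ∧ (v' i₀ : ℤ) - (v i₀ : ℤ) = g * b' := by
      have hg : Int.gcd ((m i₀ : ℤ) - (v i₀ : ℤ)) ((v' i₀ : ℤ) - (v i₀ : ℤ)) ≠ 0 := by
        intro h0
        rw [Int.gcd_eq_zero_iff] at h0
        exact hB h0.2
      obtain ⟨a', b', hco, h1, h2⟩ := Int.exists_gcd_one (Nat.pos_of_ne_zero hg)
      refine ⟨_, a', b', Int.natCast_ne_zero.2 hg, Int.isCoprime_iff_gcd_eq_one.2 hco, ?_, ?_⟩
      · rw [mul_comm]; exact h1
      · rw [mul_comm]; exact h2
    refine ⟨a', b', ?_, ?_⟩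
    · rintro ⟨ha, hb⟩
      obtain ⟨x, y, hxy⟩ := hco
      obtain ⟨c, hc⟩ := ha
      obtain ⟨d, hd⟩ := hb
      have : (2 : ℤ) * (x * c + y * d) = 1 := by
        rw [← hxy, hc, hd]; ring
      omega
    · intro i
      have h1 : (m i : ℝ) - v i = r * ((v' i : ℝ) - v i) := by
        simpa [vec] using congrFun h i
      have h2 : (m i₀ : ℝ) - v i₀ = r * ((v' i₀ : ℝ) - v i₀) := by
        simpa [vec] using congrFun h i₀
      have hA' : (m i₀ : ℝ) - v i₀ = g * a' := by exact_mod_cast hA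
      have hB'' : (v' i₀ : ℝ) - v i₀ = g * b' := by exact_mod_cast hB'
      have hg' : (g : ℝ) ≠ 0 := by exact_mod_cast hg
      have h3 : (a' : ℝ) = r * b' := by
        apply mul_left_cancel₀ hg'
        rw [← hA', h2, hB'']
        ring
      have h4 : (b' : ℝ) * ((m i : ℝ) - v i) = a' * ((v' i : ℝ) - v i) := by
        rw [h1, h3]; ring
      exact_mod_cast h4
  have hq : ∀ x y : E, qq x - qq y =
      ∑ i : G × G, (((x i : ℤ) - (y i : ℤ)) • ((i.1, i.2.2.2) : QQ)) := by
    intro x y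
    simp only [qq, Finsupp.weight_eq_sum, sub_zsmul, natCast_zsmul, ← sub_eq_add_neg,
      Finset.sum_sub_distrib]
  have key : b' • (qq m - qq v) = a' • (qq v' - qq v) := by
    rw [hq, hq, Finset.smul_sum, Finset.smul_sum]
    apply Finset.sum_congr rfl
    intro i _
    rw [smul_smul, smul_smul, hab.2 i]
  rw [hv, sub_zero, sub_zero] at key
  rcases Int.even_or_odd b' with hb | hb
  · rcases Int.even_or_odd a' with ha | ha
    · exact absurd ⟨ha, hb⟩ hab.1
    · exfalso
      obtain ⟨c, hc⟩ := hb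
      obtain ⟨d, hd⟩ := ha
      rw [hc, hd, even_zsmul, two_mul, add_zsmul, even_zsmul, one_zsmul, zero_add] at key
      exact hv' key.symm
  · obtain ⟨c, hc⟩ := hb
    rw [hc, two_mul, add_zsmul, even_zsmul, one_zsmul, zero_add] at key
    rcases Int.even_or_odd a' with ha | ha
    · obtain ⟨d, hd⟩ := ha
      rw [hd, even_zsmul] at key
      exact Or.inl key
    · obtain ⟨d, hd⟩ := ha
      rw [hd, two_mul, add_zsmul, even_zsmul, one_zsmul, zero_add] at key
      exact Or.inr key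

variable {M : Matrix G G R} {f : R}

lemma Sq.cm_sq (hS : Sq M f) (n : E) : cm (M * M) n = Matrix.scalar G (coeff n f) := by
  ext h h'
  rw [cm_apply, hS.sq]
  by_cases hh : h = h'
  · subst hh
    simp
  · simp [Matrix.diagonal_apply_ne _ hh]

lemma Sq.coeff_ne (hS : Sq M f) {n : E} (hn : coeff n f ≠ 0) : qq n = 0 := by
  have h1 : ∀ h, cm (M * M) n h h = coeff n f := by
    intro h
    rw [hS.cm_sq]
    simp
  rw [qq_eq_zero]
  constructor
  · have := hS.eq2.pattern (m := n) (h := 0) (h' := 0) (by rw [h1]; exact hn)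
    rw [← this, add_zero]
  · have h2 := hS.eq2.e3_rel n 0 0
    rw [h1, h1] at h2
    apply dbl_eq_zero
    apply io_injective
    rw [io_zero]
    apply mul_right_cancel₀ hn
    rw [h2, one_mul]

lemma cm_mul_single {M : Matrix G G R} {a b : E}
    (h : ∀ x ∈ supp M, ∀ y ∈ supp M, x + y = a + b → x = a ∧ y = b) :
    cm (M * M) (a + b) = cm M a * cm M b := by
  classical
  rw [cm_mul, Finset.sum_eq_single (a, b)]
  · rintro ⟨x, y⟩ hxy hne
    rw [Finset.HasAntidiagonal.mem_antidiagonal] at hxy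
    simp only at hxy ⊢
    by_cases hx : x ∈ supp M
    · by_cases hy : y ∈ supp M
      · obtain ⟨rfl, rfl⟩ := h x hx y hy hxy
        exact absurd rfl hne
      · rw [mem_supp, not_not] at hy
        rw [hy, mul_zero]
    · rw [mem_supp, not_not] at hx
      rw [hx, zero_mul]
  · intro hn
    rw [Finset.HasAntidiagonal.mem_antidiagonal] at hn
    exact absurd rfl hn

lemma Sq.vtx_sq (hS : Sq M f) {v : E} (hv : IsVtx vec (supp M) v) :
    cm M v * cm M v = Matrix.scalar G (coeff (v + v) f) := by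
  rw [← hS.cm_sq, cm_mul_single]
  intro x hx y hy hxy
  obtain ⟨hvS, ν, hν⟩ := hv
  have h1 : ν ⬝ᵥ vec x + ν ⬝ᵥ vec y = ν ⬝ᵥ vec v + ν ⬝ᵥ vec v := by
    rw [← dotProduct_add, ← dotProduct_add, ← vec_add, ← vec_add, hxy]
  have hle : ∀ z ∈ supp M, ν ⬝ᵥ vec z ≤ ν ⬝ᵥ vec v := by
    intro z hz
    by_cases hzv : z = v
    · rw [hzv]
    · exact (hν z hz hzv).le
  constructor
  · by_contra hne
    have h2 := hν x hx hne
    have h3 := hle y hy
    linarith
  · by_contra hne
    have h2 := hν y hy hne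
    have h3 := hle x hx
    linarith

lemma Sq.vtx_bar (hS : Sq M f) {v : E} (hv : IsVtx vec (supp M) v) :
    bar v = 0 ∨ bar v = e3 :=
  hS.eq.bar_of_sq (mem_supp.1 hv.1) (hS.vtx_sq hv)

/-- The colour lemma. -/
theorem Sq.color (hS : Sq M f) {v₀ v₁ : E} (h₀ : IsVtx vec (supp M) v₀)
    (h₁ : IsVtx vec (supp M) v₁) (hq : qq v₀ = 0) : qq v₁ = 0 := by
  classical
  by_contra hq₁
  obtain ⟨ν, v, v', hv, hv', hqv, hqv', hmax, hνv', hline⟩ :=
    exists_edge vec vec_injective (supp M) (fun m => qq m = 0) v₀ v₁ h₀ h₁ hq hq₁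
  obtain ⟨hvS, μ, hμ⟩ := hv
  have hμle : ∀ z ∈ supp M, μ ⬝ᵥ vec z ≤ μ ⬝ᵥ vec v := by
    intro z hz
    by_cases hzv : z = v
    · rw [hzv]
    · exact (hμ z hz hzv).le
  have hne : ((supp M).filter (fun m => ν ⬝ᵥ vec m = ν ⬝ᵥ vec v ∧ qq m ≠ 0)).Nonempty :=
    ⟨v', Finset.mem_filter.2 ⟨hv'.1, hνv', hqv'⟩⟩
  obtain ⟨s, hs, hsmax⟩ := Finset.exists_max_image _ (fun m => μ ⬝ᵥ vec m) hne
  rw [Finset.mem_filter] at hs
  obtain ⟨hsS, hsν, hsq⟩ := hs
  have hsv : s ≠ v := by
    rintro rfl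
    exact hsq hqv
  have hqs : qq s = qq v' := by
    obtain ⟨r, hr⟩ := hline s hsS hsν
    rcases parity_line hr hqv hqv' with h | h
    · exact absurd h hsq
    · exact h
  -- analysis of the pairs
  have hpair : ∀ x ∈ supp M, ∀ y ∈ supp M, x + y = v + s → (x = v ∧ y = s) ∨ (x = s ∧ y = v) := by
    have aux : ∀ x ∈ supp M, ∀ y ∈ supp M, x + y = v + s → qq y ≠ 0 → x = v ∧ y = s := by
      intro x hx y hy hxy hqy
      have e1 : ν ⬝ᵥ vec x + ν ⬝ᵥ vec y = ν ⬝ᵥ vec v + ν ⬝ᵥ vec s := by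
        rw [← dotProduct_add, ← dotProduct_add, ← vec_add, ← vec_add, hxy]
      have e2 : μ ⬝ᵥ vec x + μ ⬝ᵥ vec y = μ ⬝ᵥ vec v + μ ⬝ᵥ vec s := by
        rw [← dotProduct_add, ← dotProduct_add, ← vec_add, ← vec_add, hxy]
      have e3 := hmax x hx
      have e4 := hmax y hy
      have e5 : ν ⬝ᵥ vec y = ν ⬝ᵥ vec v := by linarith
      have e6 := hsmax y (Finset.mem_filter.2 ⟨hy, e5, hqy⟩)
      have hxv : x = v := by
        by_contra hne
        have := hμ x hx hne
        linarith
      refine ⟨hxv, ?_⟩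
      rw [hxv] at hxy
      exact add_left_cancel hxy
    intro x hx y hy hxy
    have hqsum : qq x + qq y = qq s := by
      rw [← qq_add, hxy, qq_add, hqv, zero_add]
    by_cases hqy : qq y = 0
    · right
      have hqx : qq x ≠ 0 := by
        intro h
        rw [h, hqy, add_zero] at hqsum
        exact hsq hqsum.symm
      have := aux y hy x hx (by rw [add_comm]; exact hxy) hqx
      exact ⟨this.2, this.1⟩
    · left
      exact aux x hx y hy hxy hqy
  have hsum : cm (M * M) (v + s) = cm M v * cm M s + cm M s * cm M v := by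
    rw [cm_mul, Finset.sum_eq_add_of_mem (v, s) (s, v)]
    · rw [Finset.HasAntidiagonal.mem_antidiagonal]
    · rw [Finset.HasAntidiagonal.mem_antidiagonal]
      exact add_comm _ _
    · intro h
      exact hsv (congrArg Prod.snd h)
    · rintro ⟨x, y⟩ hxy ⟨hne1, hne2⟩
      rw [Finset.HasAntidiagonal.mem_antidiagonal] at hxy
      simp only at hxy ⊢
      by_cases hx : x ∈ supp M
      · by_cases hy : y ∈ supp M
        · rcases hpair x hx y hy hxy with ⟨rfl, rfl⟩ | ⟨rfl, rfl⟩
          · exact absurd rfl hne1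
          · exact absurd rfl hne2
        · rw [mem_supp, not_not] at hy
          rw [hy, mul_zero]
      · rw [mem_supp, not_not] at hx
        rw [hx, zero_mul]
  -- commutation
  obtain ⟨hbv, huv⟩ := qq_eq_zero.1 hqv
  have hbs : bar s = 0 ∨ bar s = e3 := by
    rw [← qq_fst, hqs, qq_fst]
    exact hS.vtx_bar hv'
  have hcomm : cm M s * cm M v = cm M v * cm M s := by
    ext h h'
    rw [mul_entry hS.eq, mul_entry hS.eq, hbv, add_zero]
    by_cases hh : h' = h + bar s
    · subst hh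
      have : cm M v (h + bar s) (h + bar s) = cm M v h h := by
        rcases hbs with hb | hb
        · rw [hb, add_zero]
        · rw [hb, ← hS.eq.e3_rel, huv]
          have : dbl 0 = 0 := by decide
          rw [this, io_zero, one_mul]
      rw [this, mul_comm]
    · rw [hS.eq.zero_of (m := s) hh, mul_zero]
      rw [hS.eq.zero_of (m := v) (by rw [hbv, add_zero]; exact hh), mul_zero]
  rw [hcomm, hS.cm_sq] at hsum
  have hc0 : coeff (v + s) f = 0 := by
    by_contra hne
    have := hS.coeff_ne hne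
    rw [qq_add, hqv, zero_add] at this
    exact hsq this
  rw [hc0, map_zero] at hsum
  have hne0 := hS.eq.mul_ne_zero hS.eq (mem_supp.1 hvS) (mem_supp.1 hsS)
  apply hne0
  have h2 : (2 : ℂ) • (cm M v * cm M s) = 0 := by
    rw [two_smul, ← hsum]
  rcases smul_eq_zero.1 h2 with h | h
  · norm_num at h
  · exact h

/-- If one vertex has scalar coefficient matrix, then the whole matrix is scalar. -/
theorem Sq.scalar_of_vtx (hS : Sq M f) {v : E} (hv : IsVtx vec (supp M) v) {c : ℂ}
    (hc : cm M v = Matrix.scalar G c) (m : E) :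
    cm M m ∈ (Matrix.scalar G : ℂ →+* Matrix G G ℂ).range := by
  classical
  by_contra hm
  obtain ⟨hvS, ν, hν⟩ := hv
  have hνle : ∀ z ∈ supp M, ν ⬝ᵥ vec z ≤ ν ⬝ᵥ vec v := by
    intro z hz
    by_cases hzv : z = v
    · rw [hzv]
    · exact (hν z hz hzv).le
  set Z := (Matrix.scalar G : ℂ →+* Matrix G G ℂ).range with hZ
  have hne : ((supp M).filter (fun m => cm M m ∉ Z)).Nonempty := by
    refine ⟨m, Finset.mem_filter.2 ⟨?_, hm⟩⟩
    rw [mem_supp]
    intro h0
    apply hm
    rw [h0]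
    exact Z.zero_mem
  obtain ⟨s, hs, hsmax⟩ := Finset.exists_max_image _ (fun m => ν ⬝ᵥ vec m) hne
  rw [Finset.mem_filter] at hs
  obtain ⟨hsS, hsZ⟩ := hs
  have hvZ : cm M v ∈ Z := ⟨c, hc.symm⟩
  have hsv : s ≠ v := by
    rintro rfl
    exact hsZ hvZ
  have hc0 : c ≠ 0 := by
    rintro rfl
    apply mem_supp.1 hvS
    rw [hc, map_zero]
  have hrest : ∀ x ∈ Finset.HasAntidiagonal.antidiagonal (v + s), x ≠ (v, s) → x ≠ (s, v) →
      cm M x.1 * cm M x.2 ∈ Z := by
    rintro ⟨x, y⟩ hxy hne1 hne2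
    rw [Finset.HasAntidiagonal.mem_antidiagonal] at hxy
    simp only at hxy ⊢
    have e1 : ν ⬝ᵥ vec x + ν ⬝ᵥ vec y = ν ⬝ᵥ vec v + ν ⬝ᵥ vec s := by
      rw [← dotProduct_add, ← dotProduct_add, ← vec_add, ← vec_add, hxy]
    by_cases hx : x ∈ supp M
    · by_cases hy : y ∈ supp M
      · by_cases hxZ : cm M x ∈ Z
        · by_cases hyZ : cm M y ∈ Z
          · exact Z.mul_mem hxZ hyZ
          · exfalso
            have e2 := hsmax y (Finset.mem_filter.2 ⟨hy, hyZ⟩)
            have hxv : x = v := by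
              by_contra hne
              have := hν x hx hne
              linarith
            apply hne1
            rw [hxv] at hxy ⊢
            rw [add_left_cancel hxy]
        · exfalso
          have e2 := hsmax x (Finset.mem_filter.2 ⟨hx, hxZ⟩)
          have hyv : y = v := by
            by_contra hne
            have := hν y hy hne
            linarith
          apply hne2
          rw [hyv, add_comm v s] at hxy
          rw [hyv, add_right_cancel hxy]
      · rw [mem_supp, not_not] at hy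
        rw [hy, mul_zero]
        exact Z.zero_mem
    · rw [mem_supp, not_not] at hx
      rw [hx, zero_mul]
      exact Z.zero_mem
  have hmem1 : (v, s) ∈ Finset.HasAntidiagonal.antidiagonal (v + s) := by
    rw [Finset.HasAntidiagonal.mem_antidiagonal]
  have hmem2 : (s, v) ∈ (Finset.HasAntidiagonal.antidiagonal (v + s)).erase (v, s) := by
    rw [Finset.mem_erase, Finset.HasAntidiagonal.mem_antidiagonal]
    refine ⟨?_, add_comm _ _⟩
    intro h
    exact hsv (congrArg Prod.fst h)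
  have hsum : cm (M * M) (v + s) = cm M v * cm M s + (cm M s * cm M v +
      ∑ x ∈ ((Finset.HasAntidiagonal.antidiagonal (v + s)).erase (v, s)).erase (s, v),
        cm M x.1 * cm M x.2) := by
    rw [cm_mul, ← Finset.add_sum_erase _ _ hmem1, ← Finset.add_sum_erase _ _ hmem2]
  have hrestZ : ∑ x ∈ ((Finset.HasAntidiagonal.antidiagonal (v + s)).erase (v, s)).erase (s, v),
        cm M x.1 * cm M x.2 ∈ Z := by
    apply Z.sum_mem
    intro x hx
    rw [Finset.mem_erase, Finset.mem_erase] at hx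
    exact hrest x hx.2.2 hx.2.1 hx.1
  have htot : cm (M * M) (v + s) ∈ Z := by
    rw [hS.cm_sq]
    exact ⟨_, rfl⟩
  have hcomm : cm M s * cm M v = c • cm M s := by
    rw [hc, Matrix.scalar_apply, ← Matrix.smul_one_eq_diagonal, mul_smul_comm, mul_one]
  have hcomm' : cm M v * cm M s = c • cm M s := by
    rw [hc, Matrix.scalar_apply, ← Matrix.smul_one_eq_diagonal, smul_mul_assoc, one_mul]
  have h3 : (2 * c) • cm M s ∈ Z := by
    have h4 : (2 * c) • cm M s = cm (M * M) (v + s) -
        ∑ x ∈ ((Finset.HasAntidiagonal.antidiagonal (v + s)).erase (v, s)).erase (s, v),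
        cm M x.1 * cm M x.2 := by
      rw [hsum, hcomm, hcomm', two_mul, add_smul]
      abel
    rw [h4]
    exact Z.sub_mem htot hrestZ
  apply hsZ
  obtain ⟨d, hd⟩ := h3
  refine ⟨(2 * c)⁻¹ * d, ?_⟩
  have h2c : (2 * c) ≠ 0 := mul_ne_zero two_ne_zero hc0
  rw [map_mul, hd, Matrix.scalar_apply, ← Matrix.smul_one_eq_diagonal, smul_mul_assoc, one_mul,
    smul_smul, inv_mul_cancel₀ h2c, one_smul]

end Run7.h322
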