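import Mathlib

/-!
# The generic matrix setting in degree 8

`G = (ℤ/2)³`, `R = ℂ[z_{h,h'} : h, h' ∈ G]`; pairs `(t, π)` with `t : G → ℤ/4` and `π` a
permutation of `G` act on `R` by `z_{h,h'} ↦ ι(t h - t h') z_{π h, π h'}`.
-/

namespace Run7.h322

open MvPolynomial

/-- The index group. -/
abbrev G := ZMod 2 × ZMod 2 × ZMod 2

/-- The polynomial ring in the entries of a generic matrix. -/
abbrev R := MvPolynomial (G × G) ℂ

/-- The character `n ↦ iⁿ` of `ℤ/4`. -/
noncomputable def io : AddChar (ZMod 4) ℂ :=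
  AddChar.zmodChar 4 (ζ := Complex.I) Complex.I_pow_four

lemma io_ne_zero (a : ZMod 4) : io a ≠ 0 := by
  intro h
  have h1 : io (a + -a) = io a * io (-a) := AddChar.map_add_eq_mul _ _ _
  rw [h, zero_mul, add_neg_cancel, AddChar.map_zero_eq_one] at h1
  exact one_ne_zero h1

lemma io_add (a b : ZMod 4) : io (a + b) = io a * io b := AddChar.map_add_eq_mul _ _ _

lemma io_zero : io 0 = 1 := AddChar.map_zero_eq_one _

lemma io_two : io 2 = -1 := by
  rw [io, AddChar.zmodChar_apply]
  have : (2 : ZMod 4).val = 2 := rfl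
  rw [this, Complex.I_sq]

lemma io_injective : Function.Injective io := by
  have key : ∀ a : ZMod 4, io a = 1 → a = 0 := by
    intro a ha
    rw [io, AddChar.zmodChar_apply] at ha
    have hI : IsPrimitiveRoot Complex.I 4 := Complex.isPrimitiveRoot_I
    have h1 : 4 ∣ a.val := hI.dvd_of_pow_eq_one _ ha
    have h2 : a.val < 4 := ZMod.val_lt a
    have h3 : a.val = 0 := by omega
    exact (ZMod.val_eq_zero a).1 h3
  intro a b hab
  have h1 : io (a - b) * io b = io b := by
    rw [← io_add, sub_add_cancel, hab]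
  have h2 : io (a - b) = 1 := by
    apply mul_right_cancel₀ (io_ne_zero b)
    rw [h1, one_mul]
  exact sub_eq_zero.1 (key _ h2)

/-- The action of the pair `(t, π)`. -/
noncomputable def act (t : G → ZMod 4) (π : Equiv.Perm G) : R →ₐ[ℂ] R :=
  aeval (fun x : G × G => C (io (t x.1 - t x.2)) * X (π x.1, π x.2))

lemma act_X (t : G → ZMod 4) (π : Equiv.Perm G) (h h' : G) :
    act t π (X (h, h')) = C (io (t h - t h')) * X (π h, π h') := by
  simp [act]

lemma act_C (t : G → ZMod 4) (π : Equiv.Perm G) (c : ℂ) : act t π (C c) = C c := by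
  simp [act]

lemma act_comp (t t' : G → ZMod 4) (π π' : Equiv.Perm G) :
    (act t π).comp (act t' π') = act (t' + t ∘ π') (π * π') := by
  apply MvPolynomial.algHom_ext
  rintro ⟨h, h'⟩
  rw [AlgHom.comp_apply, act_X, map_mul, act_C, act_X, act_X]
  simp only [Pi.add_apply, Function.comp_apply, Equiv.Perm.mul_apply]
  rw [← mul_assoc, ← C_mul, ← io_add]
  congr 3
  ring_nf

lemma act_act (t t' : G → ZMod 4) (π π' : Equiv.Perm G) (P : R) :
    act t π (act t' π' P) = act (t' + t ∘ π') (π * π') P := by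
  rw [← act_comp, AlgHom.comp_apply]

lemma act_one : act 0 1 = AlgHom.id ℂ R := by
  apply MvPolynomial.algHom_ext
  rintro ⟨h, h'⟩
  rw [act_X]
  simp

lemma act_leftInverse (t : G → ZMod 4) (π : Equiv.Perm G) :
    Function.LeftInverse (act (fun g => - t (π⁻¹ g)) π⁻¹) (act t π) := by
  intro P
  rw [act_act]
  have h1 : t + (fun g => - t (π⁻¹ g)) ∘ π = 0 := by
    funext g
    simp
  rw [h1, inv_mul_cancel, act_one]
  rfl

lemma act_injective (t : G → ZMod 4) (π : Equiv.Perm G) : Function.Injective (act t π) :=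
  (act_leftInverse t π).injective

/-- Equivariant polynomial matrices. -/
def Eqv (N : Matrix G G R) : Prop :=
  ∀ (t : G → ZMod 4) (π : Equiv.Perm G) (h h' : G),
    act t π (N h h') = C (io (t h - t h')) * N (π h) (π h')

lemma Eqv.mul {N N' : Matrix G G R} (hN : Eqv N) (hN' : Eqv N') : Eqv (N * N') := by
  intro t π h h'
  rw [Matrix.mul_apply, Matrix.mul_apply, map_sum, Finset.mul_sum,
    ← Equiv.sum_comp π (fun j => C (io (t h - t h')) * (N (π h) j * N' j (π h')))]
  apply Finset.sum_congr rfl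
  intro j _
  rw [map_mul, hN, hN']
  have : io (t h - t h') = io (t h - t j) * io (t j - t h') := by
    rw [← io_add]
    congr 1
    ring
  rw [this, C_mul]
  ring

end Run7.h322
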