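import Pool.Agent.Run7.h322.Alg

/-!
# No `2`-central elements
-/

namespace Run7.h322

open MvPolynomial

/-- An invariant multiple of a polynomial. -/
noncomputable def orb (b : R) : R := ∏ x : (G → ZMod 4) × Equiv.Perm G, act x.1 x.2 b

lemma act_orb (b : R) (t : G → ZMod 4) (π : Equiv.Perm G) : act t π (orb b) = orb b := by
  classical
  rw [orb, map_prod]
  have hinj : Function.Injective (fun x : (G → ZMod 4) × Equiv.Perm G =>
      (x.1 + t ∘ x.2, π * x.2)) := by
    rintro ⟨a, ρ⟩ ⟨a', ρ'⟩ h
    simp only [Prod.mk.injEq] at h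
    have h2 : ρ = ρ' := mul_left_cancel h.2
    subst h2
    have h1 : a = a' := add_right_cancel h.1
    subst h1
    rfl
  have hbij : Function.Bijective (fun x : (G → ZMod 4) × Equiv.Perm G =>
      (x.1 + t ∘ x.2, π * x.2)) := Finite.injective_iff_bijective.1 hinj
  rw [← Function.Bijective.prod_comp hbij (fun x => act x.1 x.2 b)]
  apply Finset.prod_congr rfl
  intro x _
  rw [act_act]

lemma orb_ne_zero {b : R} (hb : b ≠ 0) : orb b ≠ 0 := by
  rw [orb, Finset.prod_ne_zero_iff]
  intro x _ h
  apply hb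
  apply act_injective x.1 x.2
  rw [h, map_zero]

lemma dvd_orb (b : R) : b ∣ orb b := by
  have h1 := Finset.dvd_prod_of_mem (fun x : (G → ZMod 4) × Equiv.Perm G => act x.1 x.2 b)
    (Finset.mem_univ ((0 : G → ZMod 4), (1 : Equiv.Perm G)))
  simpa [orb, act_one] using h1

/-- Clearing denominators. -/
lemma exists_poly (A : Matrix G G Om) (hA : A ∈ DD) : ∃ (c : R) (N : Matrix G G R), c ≠ 0 ∧ Eqv N ∧
    ∀ h h', algebraMap R Om c * A h h' = algebraMap R Om (N h h') := by
  obtain ⟨b, hb⟩ := IsLocalization.exist_integer_multiples_of_finite (nonZeroDivisors R)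
    (fun x : G × G => A x.1 x.2)
  have hb0 : (b : R) ≠ 0 := nonZeroDivisors.coe_ne_zero b
  obtain ⟨e, he⟩ := dvd_orb (b : R)
  have h1 : ∀ h h', ∃ n : R, algebraMap R Om n = algebraMap R Om (b : R) * A h h' := by
    intro h h'
    obtain ⟨n, hn⟩ := hb (h, h')
    refine ⟨n, ?_⟩
    rw [hn, Algebra.smul_def]
  choose n hn using h1
  refine ⟨orb b, fun h h' => e * n h h', orb_ne_zero hb0, ?_, ?_⟩
  · intro t π h h'
    apply IsFractionRing.injective R Om
    have h2 : ∀ h h', algebraMap R Om (e * n h h') = algebraMap R Om (orb b) * A h h' := by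
      intro h h'
      rw [he, map_mul, map_mul, hn]
      ring
    rw [← actK_algebraMap, h2, map_mul, map_mul, h2, actK_algebraMap, act_orb, hA]
    show _ = cst (io (t h - t h')) * _
    ring
  · intro h h'
    rw [he, map_mul, map_mul, hn]
    ring

lemma Eqv.mul_ne_zero {N N' : Matrix G G R} (hN : Eqv N) (hN' : Eqv N') (h : N ≠ 0)
    (h' : N' ≠ 0) : N * N' ≠ 0 := by
  have key : ∀ K : Matrix G G R, K ≠ 0 → K.map Psi ≠ 0 := by
    intro K hK h0
    apply hK
    ext a b : 1
    apply Psi_injective
    have := congrFun (congrFun h0 a) b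
    rw [Matrix.map_apply] at this
    rw [this, Matrix.zero_apply, map_zero]
  intro h0
  apply hN.feqv.mul_ne_zero' hN'.feqv (key N h) (key N' h')
  have h1 : N.map Psi * N'.map Psi = (N * N').map Psi := (Matrix.map_mul).symm
  rw [h1, h0]
  ext a b : 1
  simp

lemma DD_mul_eq_zero {A B : Matrix G G Om} (hA : A ∈ DD) (hB : B ∈ DD) (h : A * B = 0) :
    A = 0 ∨ B = 0 := by
  obtain ⟨c, N, hc, hN, hcN⟩ := exists_poly A hA
  obtain ⟨c', N', hc', hN', hcN'⟩ := exists_poly B hB
  have h1 : N * N' = 0 := by
    ext a b : 1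
    apply IsFractionRing.injective R Om
    have h2 := congrFun (congrFun h a) b
    rw [Matrix.mul_apply, Matrix.zero_apply] at h2
    rw [Matrix.mul_apply, map_sum, Matrix.zero_apply, map_zero]
    have h3 : ∀ j, algebraMap R Om (N a j * N' j b) =
        algebraMap R Om (c * c') * (A a j * B j b) := by
      intro j
      rw [map_mul, ← hcN, ← hcN', map_mul]
      ring
    rw [Finset.sum_congr rfl (fun j _ => h3 j), ← Finset.mul_sum, h2, mul_zero]
  have key : ∀ (c : R) (A : Matrix G G Om) (N : Matrix G G R), c ≠ 0 →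
      (∀ h h', algebraMap R Om c * A h h' = algebraMap R Om (N h h')) → N = 0 → A = 0 := by
    intro c A N hc hcN hN
    ext a b : 1
    have h2 := hcN a b
    rw [hN, Matrix.zero_apply, map_zero] at h2
    rcases mul_eq_zero.1 h2 with h3 | h3
    · exact absurd ((map_eq_zero_iff _ (IsFractionRing.injective R Om)).1 h3) hc
    · exact h3
  by_cases hN0 : N = 0
  · exact Or.inl (key c A N hc hcN hN0)
  · by_cases hN0' : N' = 0
    · exact Or.inr (key c' B N' hc' hcN' hN0')
    · exact absurd h1 (hN.mul_ne_zero hN' hN0 hN0')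

instance : Nontrivial DD := by
  refine ⟨0, 1, ?_⟩
  intro h
  have h1 := congrArg Subtype.val h
  have h2 := congrFun (congrFun h1 0) 0
  simp at h2

instance : NoZeroDivisors DD where
  eq_zero_or_eq_zero_of_mul_eq_zero := by
    rintro ⟨A, hA⟩ ⟨B, hB⟩ h
    have h1 : A * B = 0 := congrArg Subtype.val h
    rcases DD_mul_eq_zero hA hB h1 with h2 | h2
    · left
      exact Subtype.ext h2
    · right
      exact Subtype.ext h2

instance : IsDomain DD := NoZeroDivisors.to_isDomain DD

/-- scalar matrices in the algebra come from the fixed field -/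
lemma scalar_mem {A : Matrix G G Om} (hA : A ∈ DD) {g : Om} (h : A = Matrix.scalar G g) :
    (⟨A, hA⟩ : DD) ∈ (algebraMap FF DD).range := by
  have hg : g ∈ FF := by
    intro t π
    have h1 := hA t π 0 0
    rw [h, Matrix.scalar_apply, Matrix.diagonal_apply_eq, Matrix.diagonal_apply_eq, sub_self,
      io_zero, map_one, one_mul] at h1
    exact h1
  refine ⟨⟨g, hg⟩, ?_⟩
  apply Subtype.ext
  show algebraMap FF (Matrix G G Om) ⟨g, hg⟩ = A
  rw [h]
  rfl

theorem DD_sq (x : DD) (hx : x ^ 2 ∈ (algebraMap FF DD).range) :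
    x ∈ (algebraMap FF DD).range := by
  obtain ⟨A, hA⟩ := x
  obtain ⟨f, hf⟩ := hx
  have hA2 : A * A = Matrix.scalar G (f : Om) := by
    have h1 := congrArg Subtype.val hf
    have h2 : ((⟨A, hA⟩ : DD) ^ 2 : DD).val = A * A := by
      rw [sq]
      rfl
    rw [h2] at h1
    rw [← h1]
    rfl
  obtain ⟨c, N, hc, hN, hcN⟩ := exists_poly A hA
  have hc' : algebraMap R Om c ≠ 0 := by
    rw [Ne, map_eq_zero_iff _ (IsFractionRing.injective R Om)]
    exact hc
  have hNN : ∀ a b, algebraMap R Om ((N * N) a b) =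
      algebraMap R Om c * algebraMap R Om c * (A * A) a b := by
    intro a b
    rw [Matrix.mul_apply, map_sum, Matrix.mul_apply, Finset.mul_sum]
    apply Finset.sum_congr rfl
    intro j _
    rw [map_mul, ← hcN, ← hcN]
    ring
  have hsc : N * N = Matrix.scalar G ((N * N) 0 0) := by
    ext a b : 1
    apply IsFractionRing.injective R Om
    rw [hNN, Matrix.scalar_apply]
    by_cases hab : a = b
    · subst hab
      rw [Matrix.diagonal_apply_eq, hNN, hA2, Matrix.scalar_apply, Matrix.diagonal_apply_eq,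
        Matrix.diagonal_apply_eq]
    · rw [Matrix.diagonal_apply_ne _ hab, map_zero, hA2, Matrix.scalar_apply,
        Matrix.diagonal_apply_ne _ hab, mul_zero]
  obtain ⟨g, hg⟩ := hN.scalar_of_sq hsc
  apply scalar_mem hA (g := algebraMap R Om g / algebraMap R Om c)
  ext a b : 1
  apply mul_left_cancel₀ hc'
  rw [hcN, hg, Matrix.scalar_apply, Matrix.scalar_apply]
  by_cases hab : a = b
  · subst hab
    rw [Matrix.diagonal_apply_eq, Matrix.diagonal_apply_eq, mul_div_cancel₀ _ hc']
  · rw [Matrix.diagonal_apply_ne _ hab, Matrix.diagonal_apply_ne _ hab, map_zero, mul_zero]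

/-- the generic matrix -/
noncomputable def Zm : DD := ⟨fun h h' => z h h', fun t π h h' => act_z t π h h'⟩

/-- the diagonal part of the generic matrix -/
noncomputable def De : DD := ⟨Matrix.diagonal (fun h => z h h), by
  intro t π h h'
  by_cases hh : h = h'
  · subst hh
    rw [Matrix.diagonal_apply_eq, Matrix.diagonal_apply_eq, act_z]
  · rw [Matrix.diagonal_apply_ne _ hh, Matrix.diagonal_apply_ne _
      (fun h0 => hh (π.injective h0)), map_zero, mul_zero]⟩

theorem center_DD : Subalgebra.center FF DD = ⊥ := by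
  rw [eq_bot_iff]
  rintro ⟨A, hA⟩ hx
  rw [Subalgebra.mem_center_iff] at hx
  have h1 : De.val * A = A * De.val := congrArg Subtype.val (hx De)
  have h2 : Zm.val * A = A * Zm.val := congrArg Subtype.val (hx Zm)
  have hoff : ∀ a b, a ≠ b → A a b = 0 := by
    intro a b hab
    have h3 := congrFun (congrFun h1 a) b
    simp only [De, Matrix.diagonal_mul, Matrix.mul_diagonal] at h3
    have h4 : (z a a - z b b) * A a b = 0 := by
      rw [sub_mul, h3]
      ring
    rcases mul_eq_zero.1 h4 with h5 | h5
    · exfalso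
      apply hab
      have := z_inj (sub_eq_zero.1 h5)
      exact congrArg Prod.fst this
    · exact h5
  have hdiag : ∀ a b, A a a = A b b := by
    intro a b
    have h3 := congrFun (congrFun h2 a) b
    rw [Matrix.mul_apply, Matrix.mul_apply, Finset.sum_eq_single b, Finset.sum_eq_single a] at h3
    · have h4 : z a b * (A a a - A b b) = 0 := by
        have h5 : z a b * A b b = A a a * z a b := h3
        rw [mul_sub, h5]
        ring
      rcases mul_eq_zero.1 h4 with h5 | h5
      · exact absurd h5 (z_ne_zero a b)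
      · exact sub_eq_zero.1 h5
    · intro j _ hj
      rw [hoff a j hj.symm, zero_mul]
    · simp
    · intro j _ hj
      rw [hoff j b hj, mul_zero]
    · simp
  have hsc : A = Matrix.scalar G (A 0 0) := by
    ext a b : 1
    rw [Matrix.scalar_apply]
    by_cases hab : a = b
    · subst hab
      rw [Matrix.diagonal_apply_eq, hdiag a 0]
    · rw [Matrix.diagonal_apply_ne _ hab, hoff a b hab]
  exact scalar_mem hA hsc

/-- constants lie in the fixed field -/
noncomputable def cstF : ℂ →+* FF := cst.codRestrict FF (fun c t π => actK_cst t π c)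

theorem final : ∃ (F : Type) (_ : Field F) (_ : Algebra ℂ F)
    (D : Type) (_ : DivisionRing D) (_ : Algebra F D),
    Module.Finite F D ∧ Subalgebra.center F D = ⊥ ∧ Module.finrank F D = 8 ^ 2 ∧
    ∀ x : D, x ^ 2 ∈ (algebraMap F D).range → x ∈ (algebraMap F D).range := by
  refine ⟨FF, inferInstance, cstF.toAlgebra, DD, divisionRingOfFiniteDimensional FF DD,
    inferInstanceAs (Algebra FF DD), ?_, ?_, ?_, ?_⟩
  · exact inferInstanceAs (Module.Finite FF DD)
  · exact center_DD
  · exact finrank_DD
  · exact DD_sq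

end Run7.h322
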