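import Pool.Agent.Run7.h322.Defs

/-!
# Flag coordinates

A linear change of the variables of `R` under which an abelian group of acts becomes diagonal.
-/

namespace Run7.h322

open MvPolynomial

def b4 (a : ZMod 2) : ZMod 4 := (a.val : ZMod 4)

def dbl (a : ZMod 2) : ZMod 4 := 2 * b4 a

/-- twice the standard pairing -/
def pr (w h : G) : ZMod 4 := dbl (w.1 * h.1 + w.2.1 * h.2.1 + w.2.2 * h.2.2)

/-- the twist -/
def TT (g h : G) : ZMod 4 :=
  -(b4 g.2.1) * b4 (h.1 + g.1) + 2 * b4 g.1 * b4 (h.1 + g.1) * b4 h.2.1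

def el (k g : G) : ZMod 4 := b4 k.1 * b4 g.2.1 - b4 k.2.1 * b4 g.1

def e3 : G := (0, 0, 1)

set_option maxRecDepth 100000 in
lemma TT_id : ∀ k g h : G, TT k h - TT k (h + g) + TT g (h + k) - TT g h = el k g := by
  decide

lemma G_add_self : ∀ x : G, x + x = 0 := by decide

lemma G_add_add_self (x y : G) : x + y + y = x := by
  rw [add_assoc, G_add_self, add_zero]

set_option maxRecDepth 100000 in
lemma pr_add_right : ∀ w h k : G, pr w (h + k) = pr w h + pr w k := by decide

set_option maxRecDepth 100000 in
lemma pr_add_left : ∀ w w' h : G, pr (w + w') h = pr w h + pr w' h := by decide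

lemma pr_zero_right : ∀ w : G, pr w 0 = 0 := by decide

set_option maxRecDepth 100000 in
lemma pr_inj : ∀ g g' : G, (∀ w, pr w g = pr w g') → g = g' := by decide

lemma exists_pr_two : ∀ x : G, x ≠ 0 → ∃ w, pr w x = 2 := by decide

lemma dbl_add : ∀ a b : ZMod 2, dbl (a + b) = dbl a + dbl b := by decide

lemma dbl_eq_zero : ∀ a : ZMod 2, dbl a = 0 → a = 0 := by decide

lemma dbl_cases : ∀ a : ZMod 2, (a = 0 ∧ dbl a = 0) ∨ (a ≠ 0 ∧ dbl a = 2) := by decide

def prHom (w : G) : G →+ ZMod 4 where
  toFun := pr w
  map_zero' := pr_zero_right w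
  map_add' := pr_add_right w

def dblHom : ZMod 2 →+ ZMod 4 where
  toFun := dbl
  map_zero' := by decide
  map_add' := dbl_add

set_option maxRecDepth 100000 in
lemma two_el_add : ∀ k g g' : G, 2 * el k (g + g') = 2 * el k g + 2 * el k g' := by decide

def elHom (k : G) : G →+ ZMod 4 where
  toFun := fun g => 2 * el k g
  map_zero' := by revert k; decide
  map_add' := two_el_add k

lemma el_e3 : ∀ g : G, el e3 g = 0 := by decide

lemma TT_e3 : ∀ g : G, TT e3 g = 0 := by decide

lemma pr_e3 : ∀ w : G, pr w e3 = dbl w.2.2 := by decide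

lemma sum_io_pr (x : G) : ∑ w : G, io (pr w x) = if x = 0 then 8 else 0 := by
  by_cases hx : x = 0
  · subst hx
    simp only [pr_zero_right, io_zero, if_true]
    simp [G]
  · rw [if_neg hx]
    obtain ⟨w₀, hw₀⟩ := exists_pr_two x hx
    have h1 : ∑ w : G, io (pr w x) = ∑ w : G, io (pr (w + w₀) x) :=
      (Equiv.sum_comp (Equiv.addRight w₀) (fun w => io (pr w x))).symm
    have h2 : ∑ w : G, io (pr (w + w₀) x) = - ∑ w : G, io (pr w x) := by
      rw [← Finset.sum_neg_distrib]
      apply Finset.sum_congr rfl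
      intro w _
      rw [pr_add_left, io_add, hw₀, io_two]
      ring
    rw [h2] at h1
    have h3 : (2 : ℂ) * ∑ w : G, io (pr w x) = 0 := by
      rw [two_mul]
      nth_rewrite 1 [h1]
      ring
    rcases mul_eq_zero.1 h3 with h | h
    · norm_num at h
    · exact h

/-- The change of variables. -/
noncomputable def Psi : R →ₐ[ℂ] R :=
  aeval (fun x : G × G =>
    ∑ w : G, C (io (TT (x.1 + x.2) x.1 + pr w x.1)) * X (x.1 + x.2, w))

/-- Its left inverse. -/
noncomputable def Phi : R →ₐ[ℂ] R :=
  aeval (fun y : G × G =>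
    ∑ h : G, C ((1 / 8 : ℂ) * io (- TT y.1 h + pr y.2 h)) * X (h, h + y.1))

lemma Psi_X (h h' : G) : Psi (X (h, h')) =
    ∑ w : G, C (io (TT (h + h') h + pr w h)) * X (h + h', w) := by
  simp [Psi]

lemma Phi_X (g w : G) : Phi (X (g, w)) =
    ∑ h : G, C ((1 / 8 : ℂ) * io (- TT g h + pr w h)) * X (h, h + g) := by
  simp [Phi]

lemma Psi_C (c : ℂ) : Psi (C c) = C c := by simp [Psi]

lemma Phi_C (c : ℂ) : Phi (C c) = C c := by simp [Phi]

lemma Phi_Psi (P : R) : Phi (Psi P) = P := by
  have key : Phi.comp Psi = AlgHom.id ℂ R := by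
    apply MvPolynomial.algHom_ext
    rintro ⟨h, h'⟩
    rw [AlgHom.comp_apply, Psi_X, map_sum]
    simp only [map_mul, Phi_C, Phi_X, AlgHom.id_apply]
    have h1 : ∀ w : G, (C (io (TT (h + h') h + pr w h)) : R) *
        ∑ k : G, C ((1 / 8 : ℂ) * io (- TT (h + h') k + pr w k)) * X (k, k + (h + h')) =
        ∑ k : G, C ((1 / 8 : ℂ) * io (TT (h + h') h - TT (h + h') k) * io (pr w (h + k))) *
          X (k, k + (h + h')) := by
      intro w
      rw [Finset.mul_sum]
      apply Finset.sum_congr rfl
      intro k _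
      rw [← mul_assoc, ← C_mul]
      congr 2
      rw [pr_add_right, io_add, io_add, io_add, sub_eq_add_neg, io_add]
      ring
    simp only [← C_mul] at h1 ⊢
    rw [Finset.sum_congr rfl (fun w _ => h1 w), Finset.sum_comm]
    have h2 : ∀ k : G, ∑ w : G, (C ((1 / 8 : ℂ) * io (TT (h + h') h - TT (h + h') k) *
        io (pr w (h + k))) : R) * X (k, k + (h + h')) =
        if k = h then X (h, h') else 0 := by
      intro k
      rw [← Finset.sum_mul, ← map_sum, ← Finset.mul_sum, sum_io_pr]
      by_cases hk : k = h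
      · subst hk
        rw [if_pos (G_add_self k), if_pos rfl, sub_self, io_zero, ← add_assoc, G_add_self,
          zero_add]
        norm_num
      · have : h + k ≠ 0 := by
          intro h0
          apply hk
          have := congrArg (fun x => x + k) h0
          simp only [G_add_add_self, zero_add] at this
          exact this.symm
        rw [if_neg this, if_neg hk]
        simp
    rw [Finset.sum_congr rfl (fun k _ => h2 k)]
    simp
  have := congrArg (fun f => f P) key
  simpa using this

lemma Psi_injective : Function.Injective Psi :=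
  Function.LeftInverse.injective Phi_Psi

/-- Diagonal scaling. -/
noncomputable def sc (χ : G × G → ZMod 4) : R →ₐ[ℂ] R :=
  aeval (fun i => C (io (χ i)) * X i)

lemma coeff_sc (χ : G × G → ZMod 4) (P : R) (m : G × G →₀ ℕ) :
    coeff m (sc χ P) = io (Finsupp.weight χ m) * coeff m P := by
  classical
  induction P using MvPolynomial.induction_on generalizing m with
  | C a =>
    have : sc χ (C a) = C a := by simp [sc]
    rw [this, coeff_C]
    by_cases h : 0 = m
    · subst h
      rw [map_zero, io_zero, one_mul]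
    · rw [if_neg h, mul_zero]
  | add p q hp hq =>
    rw [map_add, coeff_add, coeff_add, hp, hq]
    ring
  | mul_X p i hp =>
    have h1 : sc χ (p * X i) = C (io (χ i)) * (sc χ p * X i) := by
      simp [sc]
      ring
    rw [h1, coeff_C_mul, coeff_mul_X', coeff_mul_X']
    by_cases h : i ∈ m.support
    · rw [if_pos h, if_pos h, hp, ← Finsupp.weight_sub_single_add (Finsupp.mem_support_iff.1 h),
        io_add]
      ring
    · rw [if_neg h, if_neg h]
      simp

def lam (k : G) : G × G → ZMod 4 := fun i => el k i.1 + pr i.2 k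

def kap (w : G) : G × G → ZMod 4 := fun i => pr w i.1

lemma Psi_act_trans (k : G) (P : R) :
    Psi (act (TT k) (Equiv.addRight k) P) = sc (lam k) (Psi P) := by
  have key : Psi.comp (act (TT k) (Equiv.addRight k)) = (sc (lam k)).comp Psi := by
    apply MvPolynomial.algHom_ext
    rintro ⟨h, h'⟩
    rw [AlgHom.comp_apply, AlgHom.comp_apply, act_X, map_mul, Psi_C, Psi_X, Psi_X, map_sum,
      Finset.mul_sum]
    have h1 : Equiv.addRight k h + Equiv.addRight k h' = h + h' := by
      simp only [Equiv.coe_addRight]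
      rw [add_add_add_comm, G_add_self, add_zero]
    rw [h1]
    apply Finset.sum_congr rfl
    intro w _
    have h2 : sc (lam k) (C (io (TT (h + h') h + pr w h)) * X (h + h', w)) =
        C (io (TT (h + h') h + pr w h)) * (C (io (lam k (h + h', w))) * X (h + h', w)) := by
      simp [sc]
    rw [h2, ← mul_assoc, ← mul_assoc, ← C_mul, ← C_mul, ← io_add, ← io_add]
    congr 3
    have h3 := TT_id k (h + h') h
    have h4 : h + (h + h') = h' := by
      rw [← add_assoc, G_add_self, zero_add]
    rw [h4] at h3
    simp only [Equiv.coe_addRight, lam, pr_add_right]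
    rw [← h3]
    ring
  have := congrArg (fun f => f P) key
  simpa using this

lemma Psi_act_char (w : G) (P : R) :
    Psi (act (pr w) 1 P) = sc (kap w) (Psi P) := by
  have key : Psi.comp (act (pr w) 1) = (sc (kap w)).comp Psi := by
    apply MvPolynomial.algHom_ext
    rintro ⟨h, h'⟩
    rw [AlgHom.comp_apply, AlgHom.comp_apply, act_X, map_mul, Psi_C, Equiv.Perm.one_apply,
      Equiv.Perm.one_apply, Psi_X, map_sum, Finset.mul_sum]
    apply Finset.sum_congr rfl
    intro w' _
    have h2 : sc (kap w) (C (io (TT (h + h') h + pr w' h)) * X (h + h', w')) =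
        C (io (TT (h + h') h + pr w' h)) * (C (io (kap w (h + h', w'))) * X (h + h', w')) := by
      simp [sc]
    rw [h2, ← mul_assoc, ← mul_assoc, ← C_mul, ← C_mul, ← io_add, ← io_add]
    congr 3
    simp only [kap, pr_add_right]
    have h3 : ∀ a b : G, pr a b = - pr a b := by decide
    have h4 := h3 w h'
    rw [sub_eq_add_neg, ← h4]
    ring
  have := congrArg (fun f => f P) key
  simpa using this

end Run7.h322
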