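import Pool.Agent.Run7.h322.Weights

/-!
# An equivariant polynomial matrix with scalar square is scalar
-/

namespace Run7.h322

open MvPolynomial

variable {N : Matrix G G R} {f : R}

lemma Eqv.toSq (hN : Eqv N) (hf : N * N = Matrix.scalar G f) : Sq (N.map Psi) (Psi f) where
  eq := hN.feqv
  eq2 := by
    have h1 : N.map Psi * N.map Psi = (N * N).map Psi := (Matrix.map_mul).symm
    rw [h1]
    exact (hN.mul hN).feqv
  sq := by
    have h1 : N.map Psi * N.map Psi = (N * N).map Psi := (Matrix.map_mul).symm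
    rw [h1, hf]
    ext h h' : 1
    by_cases hh : h = h'
    · subst hh
      simp
    · simp [Matrix.diagonal_apply_ne _ hh]

/-- the component of `N` of degree `d` in flag coordinates -/
noncomputable def comp (d : G → ℕ) (M : Matrix G G R) : Matrix G G R :=
  fun h h' => weightedHomogeneousComponent wy d (M h h')

lemma cm_comp (d : G → ℕ) (M : Matrix G G R) (m : E) :
    cm (comp d M) m = if tau m = d then cm M m else 0 := by
  ext h h'
  rw [cm_apply, comp, coeff_component]
  by_cases hm : tau m = d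
  · rw [if_pos hm, if_pos hm, cm_apply]
  · rw [if_neg hm, if_neg hm, Matrix.zero_apply]

lemma comp_sq {M : Matrix G G R} {d : G → ℕ} (hd : ∀ m ∈ supp M, nrm (tau m) ≤ nrm d) :
    comp d M * comp d M = comp (d + d) (M * M) := by
  classical
  have key : ∀ n, cm (comp d M * comp d M) n = cm (comp (d + d) (M * M)) n := by
    intro n
    rw [cm_mul, cm_comp, cm_mul]
    by_cases hn : tau n = d + d
    · rw [if_pos hn]
      apply Finset.sum_congr rfl
      rintro ⟨x, y⟩ hxy
      rw [Finset.HasAntidiagonal.mem_antidiagonal] at hxy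
      simp only at hxy ⊢
      have hsum : tau x + tau y = d + d := by rw [← tau_add, hxy, hn]
      rw [cm_comp, cm_comp]
      by_cases hx : x ∈ supp M
      · by_cases hy : y ∈ supp M
        · have hxd := eq_of_add d (tau x) (tau y) (hd x hx) (hd y hy) hsum
          have hyd := eq_of_add d (tau y) (tau x) (hd y hy) (hd x hx)
            (by rw [add_comm]; exact hsum)
          rw [if_pos hxd, if_pos hyd]
        · rw [mem_supp, not_not] at hy
          rw [hy]
          simp
      · rw [mem_supp, not_not] at hx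
        rw [hx]
        simp
    · rw [if_neg hn]
      apply Finset.sum_eq_zero
      rintro ⟨x, y⟩ hxy
      rw [Finset.HasAntidiagonal.mem_antidiagonal] at hxy
      simp only at hxy ⊢
      rw [cm_comp, cm_comp]
      by_cases hx : tau x = d
      · by_cases hy : tau y = d
        · exfalso
          apply hn
          rw [← hxy, tau_add, hx, hy]
        · rw [if_neg hy, mul_zero]
      · rw [if_neg hx, zero_mul]
  ext h h' n
  exact congrFun (congrFun (key n) h) h'

lemma comp_apply (d : G → ℕ) (N : Matrix G G R) (h h' : G) :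
    comp d (N.map Psi) h h' = Psi (weightedHomogeneousComponent wz d (N h h')) := by
  rw [comp, Matrix.map_apply, Psi_component]

lemma Eqv.act_comp (hN : Eqv N) (θ : G ≃+ G) (d : G → ℕ) (h h' : G) :
    act 0 θ.toEquiv (weightedHomogeneousComponent wz d (N h h')) =
      weightedHomogeneousComponent wz (push θ d) (N (θ h) (θ h')) := by
  rw [act_component, hN]
  simp only [Pi.zero_apply, sub_zero, io_zero, C_1, one_mul]
  rfl

lemma mem_degrees {M : Matrix G G R} {d : G → ℕ} :
    (∃ m ∈ supp M, tau m = d) ↔ ∃ h h', comp d M h h' ≠ 0 := by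
  constructor
  · rintro ⟨m, hm, rfl⟩
    rw [mem_supp] at hm
    by_contra hcon
    push Not at hcon
    apply hm
    have h1 : cm (comp (tau m) M) m = cm M m := by rw [cm_comp, if_pos rfl]
    rw [← h1]
    ext h h'
    rw [cm_apply, hcon h h', coeff_zero, Matrix.zero_apply]
  · rintro ⟨h, h', hne⟩
    rw [MvPolynomial.ne_zero_iff] at hne
    obtain ⟨m, hm⟩ := hne
    rw [← cm_apply, cm_comp] at hm
    by_cases ht : tau m = d
    · refine ⟨m, ?_, ht⟩
      rw [mem_supp]
      intro h0
      rw [if_pos ht, h0] at hm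
      exact hm rfl
    · rw [if_neg ht] at hm
      exact absurd rfl hm

lemma Eqv.degrees_push (hN : Eqv N) (θ : G ≃+ G) {d : G → ℕ}
    (hd : ∃ m ∈ supp (N.map Psi), tau m = d) :
    ∃ m ∈ supp (N.map Psi), tau m = push θ d := by
  rw [mem_degrees] at hd ⊢
  obtain ⟨h, h', hne⟩ := hd
  refine ⟨θ h, θ h', ?_⟩
  rw [comp_apply] at hne ⊢
  rw [← hN.act_comp]
  intro h0
  apply hne
  have h1 : act 0 θ.toEquiv (weightedHomogeneousComponent wz d (N h h')) = 0 := by
    apply Psi_injective
    rw [h0, map_zero]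
  have h2 : weightedHomogeneousComponent wz d (N h h') = 0 := by
    apply act_injective 0 θ.toEquiv
    rw [h1, map_zero]
  rw [h2, map_zero]

lemma exists_vtx_tau {M : Matrix G G R} {d : G → ℕ} (hd : ∀ m ∈ supp M, nrm (tau m) ≤ nrm d)
    (hex : ∃ m ∈ supp M, tau m = d) : ∃ v, IsVtx vec (supp M) v ∧ tau v = d := by
  obtain ⟨m, hm, hmd⟩ := hex
  obtain ⟨v, hv, hmax⟩ := exists_vtx vec vec_injective (supp M) ⟨m, hm⟩ (fnl d)
  refine ⟨v, hv, ?_⟩
  apply eq_of_dot d (tau v) (hd v hv.1)
  have h1 := hmax m hm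
  rw [fnl_dot, fnl_dot, hmd] at h1
  exact h1

lemma scalar_of_cm (h : ∀ m, cm (N.map Psi) m ∈ (Matrix.scalar G : ℂ →+* Matrix G G ℂ).range) :
    ∃ g, N = Matrix.scalar G g := by
  refine ⟨N 0 0, ?_⟩
  ext h1 h2 : 1
  apply Psi_injective
  ext m
  obtain ⟨c, hc⟩ := h m
  by_cases hh : h1 = h2
  · subst hh
    simp only [Matrix.scalar_apply, Matrix.diagonal_apply_eq]
    have e1 := congrFun (congrFun hc h1) h1
    have e2 := congrFun (congrFun hc 0) 0
    simp only [Matrix.scalar_apply, Matrix.diagonal_apply_eq] at e1 e2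
    rw [cm_apply, Matrix.map_apply] at e1 e2
    rw [← e1, ← e2]
  · have e1 := congrFun (congrFun hc h1) h2
    rw [Matrix.scalar_apply, Matrix.diagonal_apply_ne _ hh, cm_apply, Matrix.map_apply] at e1
    rw [← e1, Matrix.scalar_apply, Matrix.diagonal_apply_ne _ hh, map_zero, coeff_zero]

/-- **Main theorem on polynomial matrices.** -/
theorem Eqv.scalar_of_sq (hN : Eqv N) (hf : N * N = Matrix.scalar G f) :
    ∃ g, N = Matrix.scalar G g := by
  classical
  by_cases hN0 : N = 0
  · exact ⟨0, by rw [hN0, map_zero]⟩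
  set M := N.map Psi with hM
  have hS : Sq M (Psi f) := hN.toSq hf
  have hM0 : M ≠ 0 := by
    intro h0
    apply hN0
    ext h h' : 1
    apply Psi_injective
    have := congrFun (congrFun h0 h) h'
    rw [hM, Matrix.map_apply] at this
    rw [this, Matrix.zero_apply, map_zero]
  -- a degree of maximal norm
  obtain ⟨m₀, hm₀, hmax⟩ := (supp M).exists_max_image (fun m => nrm (tau m)) (supp_nonempty hM0)
  set d := tau m₀ with hd
  have hdθ : ∀ θ : G ≃+ G, ∃ v, IsVtx vec (supp M) v ∧ tau v = push θ d := by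
    intro θ
    apply exists_vtx_tau
    · intro m hm
      rw [nrm_push]
      exact hmax m hm
    · exact hN.degrees_push θ ⟨m₀, hm₀, rfl⟩
  choose v hv hvt using hdθ
  have hbar : ∀ θ, bar (v θ) = θ (pat d) := by
    intro θ
    rw [bar_eq_pat, hvt, pat_push]
  -- the pattern is trivial
  have hpat : pat d = 0 := by
    apply sig_decide
    · have := hS.vtx_bar (hv (AddEquiv.refl G))
      rw [hbar] at this
      exact this
    · have := hS.vtx_bar (hv sig)
      rw [hbar] at this
      exact this
  have hbar0 : ∀ θ, bar (v θ) = 0 := by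
    intro θ
    rw [hbar, hpat, map_zero]
  -- the component is diagonal with entries equal up to sign
  have hoff : ∀ h h', h ≠ h' → comp d M h h' = 0 := by
    intro h h' hne
    ext m
    rw [← cm_apply, cm_comp]
    by_cases ht : tau m = d
    · rw [if_pos ht, hS.eq.zero_of, coeff_zero]
      rw [bar_eq_pat, ht, hpat, add_zero]
      exact hne.symm
    · rw [if_neg ht, Matrix.zero_apply, coeff_zero]
  have hdiag : ∀ h, comp d M h h * comp d M h h =
      weightedHomogeneousComponent wy (d + d) (Psi f) := by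
    intro h
    have h1 := comp_sq (M := M) (d := d) hmax
    have h2 := congrFun (congrFun h1 h) h
    rw [Matrix.mul_apply, Finset.sum_eq_single h] at h2
    · rw [h2, comp, hS.sq, Matrix.scalar_apply, Matrix.diagonal_apply_eq]
    · intro b _ hb
      rw [hoff h b hb.symm, zero_mul]
    · simp
  have hsq : ∀ h, comp d M h h = comp d M 0 0 ∨ comp d M h h = - comp d M 0 0 := by
    intro h
    have h1 : (comp d M h h) ^ 2 = (comp d M 0 0) ^ 2 := by
      rw [sq, sq, hdiag, hdiag]
    exact sq_eq_sq_iff_eq_or_eq_neg.1 h1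
  have hs : ∀ h, ∃ s : ℂ, (s = 1 ∨ s = -1) ∧ comp d M h h = C s * comp d M 0 0 := by
    intro h
    rcases hsq h with h1 | h1
    · exact ⟨1, Or.inl rfl, by rw [h1, C_1, one_mul]⟩
    · exact ⟨-1, Or.inr rfl, by rw [h1, C_neg, C_1, neg_one_mul]⟩
  choose s hs1 hs2 using hs
  -- transport by automorphisms
  have hθ : ∀ (θ : G ≃+ G) (h : G), cm M (v θ) (θ h) (θ h) = s h * cm M (v θ) 0 0 := by
    intro θ h
    have h1 : weightedHomogeneousComponent wz d (N h h) =
        C (s h) * weightedHomogeneousComponent wz d (N 0 0) := by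
      apply Psi_injective
      rw [map_mul, Psi_C, ← comp_apply, ← comp_apply, ← hM]
      exact hs2 h
    have h2 := congrArg (act 0 θ.toEquiv) h1
    rw [map_mul, act_C, hN.act_comp, hN.act_comp, map_zero] at h2
    have h3 := congrArg Psi h2
    rw [map_mul, Psi_C, ← comp_apply, ← comp_apply, ← hM] at h3
    have h4 := congrArg (coeff (v θ)) h3
    rw [coeff_C_mul, ← cm_apply, ← cm_apply, cm_comp, if_pos (hvt θ)] at h4
    exact h4
  have hne : ∀ θ, cm M (v θ) 0 0 ≠ 0 := by
    intro θ
    have := hS.eq.ne_zero (mem_supp.1 (hv θ).1) 0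
    rwa [hbar0, add_zero] at this
  have hu : ∀ (θ : G ≃+ G) (g : G), θ g = e3 → io (dbl (uu (v θ))) = s g := by
    intro θ g hg
    apply mul_right_cancel₀ (hne θ)
    rw [hS.eq.e3_rel, ← hθ θ g, hg, zero_add]
  -- all the signs outside `0` agree
  have hsame : ∀ g g' : G, g ≠ 0 → g' ≠ 0 → s g = 1 → s g' = 1 := by
    intro g g' hg hg' h1
    obtain ⟨θ, hθg⟩ := exists_auto g hg
    obtain ⟨θ', hθg'⟩ := exists_auto g' hg'
    have e1 := hu θ g hθg
    have e2 := hu θ' g' hθg'
    rw [h1] at e1
    have e3' : dbl (uu (v θ)) = 0 := io_injective (by rw [e1, io_zero])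
    have e4 : qq (v θ) = 0 := qq_eq_zero.2 ⟨hbar0 θ, dbl_eq_zero _ e3'⟩
    have e5 := hS.color (hv θ) (hv θ') e4
    have e6 := (qq_eq_zero.1 e5).2
    rw [← e2, e6]
    have : dbl 0 = 0 := by decide
    rw [this, io_zero]
  -- multiplicativity
  have hs0 : s 0 = 1 := by
    have := hθ (AddEquiv.refl G) 0
    rw [map_zero] at this
    apply mul_right_cancel₀ (hne (AddEquiv.refl G))
    rw [← this, one_mul]
  have hrefl : ∀ h, cm M (v (AddEquiv.refl G)) h h = s h * cm M (v (AddEquiv.refl G)) 0 0 :=
    fun h => hθ (AddEquiv.refl G) h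
  have hmul : ∀ h k, s (h + k) = s h * s k := by
    intro h k
    set w := v (AddEquiv.refl G) with hw
    have e0 : ∀ h, io (Finsupp.weight (lam k) w) * s h = s (h + k) := by
      intro h
      have e1 := hS.eq.trans k h h w
      rw [sub_self, io_zero, one_mul, hrefl h, hrefl (h + k), ← mul_assoc] at e1
      exact mul_right_cancel₀ (hne (AddEquiv.refl G)) e1
    have e1 := e0 0
    rw [hs0, mul_one, zero_add] at e1
    rw [← e0 h, e1, mul_comm]
  have hall : ∀ g, s g = 1 := by
    intro g
    by_cases hg : g = 0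
    · rw [hg, hs0]
    · have a1 : ((1, 0, 0) : G) ≠ 0 := by decide
      have a2 : ((0, 1, 0) : G) ≠ 0 := by decide
      have a3 : ((1, 0, 0) : G) + (0, 1, 0) ≠ 0 := by decide
      rcases hs1 (1, 0, 0) with b1 | b1
      · exact hsame _ g a1 hg b1
      · rcases hs1 (0, 1, 0) with b2 | b2
        · exact hsame _ g a2 hg b2
        · apply hsame _ g a3 hg
          rw [hmul, b1, b2]
          norm_num
  -- conclusion
  apply scalar_of_cm
  intro m
  have hsc : cm M (v (AddEquiv.refl G)) =
      Matrix.scalar G (cm M (v (AddEquiv.refl G)) 0 0) := by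
    ext h h'
    rw [Matrix.scalar_apply]
    by_cases hh : h = h'
    · subst hh
      rw [Matrix.diagonal_apply_eq, hrefl, hall, one_mul]
    · rw [Matrix.diagonal_apply_ne _ hh]
      apply hS.eq.zero_of
      rw [hbar0, add_zero]
      exact fun h0 => hh h0.symm
  exact hS.scalar_of_vtx (hv (AddEquiv.refl G)) hsc m

end Run7.h322
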