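import Pool.Agent.Run7.h322.Color

/-!
# The grading by `ℕ^G` and the symmetry of order seven
-/

namespace Run7.h322

open MvPolynomial

def wz : G × G → (G → ℕ) := fun x => Pi.single (x.1 + x.2) 1

def wy : G × G → (G → ℕ) := fun y => Pi.single y.1 1

/-- An algebra map sending variables to homogeneous elements commutes with taking components. -/
lemma map_component (φ : R →ₐ[ℂ] R) (w w' : G × G → (G → ℕ)) (θ : (G → ℕ) →+ (G → ℕ))
    (hθ : Function.Injective θ)
    (hφ : ∀ i, IsWeightedHomogeneous w' (φ (X i)) (θ (w i))) (d : G → ℕ) (P : R) :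
    φ (weightedHomogeneousComponent w d P) = weightedHomogeneousComponent w' (θ d) (φ P) := by
  classical
  have hmon : ∀ (u : G × G →₀ ℕ) (a : ℂ),
      IsWeightedHomogeneous w' (φ (monomial u a)) (θ (Finsupp.weight w u)) := by
    intro u a
    have h1 : φ (monomial u a) = C a * ∏ i ∈ u.support, φ (X i) ^ (u i) := by
      rw [monomial_eq, map_mul, Finsupp.prod, map_prod]
      congr 1
      · exact φ.commutes a
      · apply Finset.prod_congr rfl
        intro i _
        rw [map_pow]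
    have h2 : θ (Finsupp.weight w u) = 0 + ∑ i ∈ u.support, (u i) • θ (w i) := by
      rw [zero_add, Finsupp.weight_apply, Finsupp.sum, map_sum]
      apply Finset.sum_congr rfl
      intro i _
      rw [map_nsmul]
    rw [h1, h2]
    apply (isWeightedHomogeneous_C w' a).mul
    apply IsWeightedHomogeneous.prod
    intro i _
    exact (hφ i).pow _
  induction P using MvPolynomial.induction_on' with
  | monomial u a =>
    have h1 : (monomial u a : R) ∈ weightedHomogeneousSubmodule ℂ w (Finsupp.weight w u) :=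
      isWeightedHomogeneous_monomial w u a rfl
    have h2 : φ (monomial u a) ∈ weightedHomogeneousSubmodule ℂ w' (θ (Finsupp.weight w u)) :=
      hmon u a
    rw [weightedHomogeneousComponent_of_mem h1, weightedHomogeneousComponent_of_mem h2]
    by_cases h : d = Finsupp.weight w u
    · rw [if_pos h, if_pos (by rw [h])]
    · rw [if_neg h, if_neg (fun h' => h (hθ h')), map_zero]
  | add p q hp hq =>
    rw [map_add, map_add, map_add, map_add, hp, hq]

lemma Psi_component (d : G → ℕ) (P : R) :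
    Psi (weightedHomogeneousComponent wz d P) = weightedHomogeneousComponent wy d (Psi P) := by
  refine map_component Psi wz wy (AddMonoidHom.id _) (fun _ _ h => h) ?_ d P
  rintro ⟨h, h'⟩
  rw [Psi_X]
  apply IsWeightedHomogeneous.sum
  intro w _
  have := (isWeightedHomogeneous_C wy (io (TT (h + h') h + pr w h))).mul
    (isWeightedHomogeneous_X ℂ wy (h + h', w))
  rw [zero_add] at this
  exact this

/-- the action of an automorphism on degrees -/
def push (θ : G ≃+ G) : (G → ℕ) →+ (G → ℕ) where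
  toFun d := fun g => d (θ.symm g)
  map_zero' := rfl
  map_add' _ _ := rfl

lemma push_injective (θ : G ≃+ G) : Function.Injective (push θ) := by
  intro d d' h
  funext g
  have := congrFun h (θ g)
  simpa [push] using this

lemma act_component (θ : G ≃+ G) (d : G → ℕ) (P : R) :
    act 0 θ.toEquiv (weightedHomogeneousComponent wz d P) =
      weightedHomogeneousComponent wz (push θ d) (act 0 θ.toEquiv P) := by
  refine map_component (act 0 θ.toEquiv) wz wz (push θ) (push_injective θ) ?_ d P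
  rintro ⟨h, h'⟩
  rw [act_X]
  have hkey : push θ (wz (h, h')) = wz (θ.toEquiv h, θ.toEquiv h') := by
    funext g
    simp only [push, wz, AddMonoidHom.coe_mk, ZeroHom.coe_mk, Pi.single_apply]
    have e : θ.toEquiv h + θ.toEquiv h' = θ (h + h') := (map_add θ h h').symm
    rw [e]
    by_cases hg : θ.symm g = h + h'
    · rw [if_pos hg, if_pos (by rw [← hg]; simp)]
    · rw [if_neg hg, if_neg]
      intro h0
      apply hg
      rw [h0]
      simp
  have := (isWeightedHomogeneous_C wz (io ((0 : G → ZMod 4) h - (0 : G → ZMod 4) h'))).mul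
    (isWeightedHomogeneous_X ℂ wz (θ.toEquiv h, θ.toEquiv h'))
  rw [zero_add] at this
  rw [hkey]
  exact this

/-- degree of an exponent -/
noncomputable def tau (m : E) : G → ℕ := Finsupp.weight wy m

lemma tau_add (m n : E) : tau (m + n) = tau m + tau n := map_add _ _ _

lemma coeff_component (d : G → ℕ) (P : R) (m : E) :
    coeff m (weightedHomogeneousComponent wy d P) = if tau m = d then coeff m P else 0 := by
  classical
  rw [coeff_weightedHomogeneousComponent]
  rfl

/-- pattern of a degree -/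
def pat : (G → ℕ) →+ G where
  toFun d := ∑ g, d g • g
  map_zero' := by simp
  map_add' d d' := by simp [add_smul, Finset.sum_add_distrib]

lemma pat_apply (d : G → ℕ) : pat d = ∑ g, d g • g := rfl

lemma bar_eq_pat (m : E) : bar m = pat (tau m) := by
  rw [tau, map_weight, bar]
  congr 2
  funext i
  rw [pat_apply, wy, Finset.sum_eq_single i.1]
  · simp
  · intro b _ hb
    rw [Pi.single_apply, if_neg hb, zero_smul]
  · simp

lemma pat_push (θ : G ≃+ G) (d : G → ℕ) : pat (push θ d) = θ (pat d) := by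
  rw [pat_apply, pat_apply, map_sum, ← Equiv.sum_comp θ.toEquiv]
  apply Finset.sum_congr rfl
  intro g _
  rw [map_nsmul]
  have : push θ d (θ.toEquiv g) = d g := by
    show d (θ.symm (θ g)) = d g
    rw [AddEquiv.symm_apply_apply]
  rw [this]
  rfl

/-- squared norm of a degree -/
def nrm (d : G → ℕ) : ℕ := ∑ g, d g ^ 2

lemma nrm_push (θ : G ≃+ G) (d : G → ℕ) : nrm (push θ d) = nrm d := by
  rw [nrm, nrm, ← Equiv.sum_comp θ.toEquiv]
  apply Finset.sum_congr rfl
  intro g _
  show d (θ.symm (θ g)) ^ 2 = d g ^ 2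
  rw [AddEquiv.symm_apply_apply]

/-- real functional attached to a degree -/
noncomputable def fnl (d : G → ℕ) : G × G → ℝ := fun i => (d i.1 : ℝ)

lemma fnl_dot (d : G → ℕ) (m : E) : fnl d ⬝ᵥ vec m = ∑ g, (d g : ℝ) * (tau m g : ℝ) := by
  have h1 : ∀ g, (tau m g : ℝ) = ∑ i : G × G, (m i : ℝ) * (if g = i.1 then 1 else 0) := by
    intro g
    rw [tau, Finsupp.weight_eq_sum, Finset.sum_apply]
    push_cast
    apply Finset.sum_congr rfl
    intro i _
    rw [Pi.smul_apply, wy, Pi.single_apply]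
    by_cases h : g = i.1
    · simp [h]
    · simp [h]
  simp only [h1, Finset.mul_sum]
  rw [Finset.sum_comm, dotProduct]
  apply Finset.sum_congr rfl
  intro i _
  rw [Finset.sum_eq_single i.1]
  · simp [fnl, vec]
  · intro b _ hb
    rw [if_neg hb]
    ring
  · simp

lemma eq_of_dot (d d' : G → ℕ) (h1 : nrm d' ≤ nrm d)
    (h2 : ∑ g, (d g : ℝ) * (d g : ℝ) ≤ ∑ g, (d g : ℝ) * (d' g : ℝ)) : d' = d := by
  have h3 : ∑ g, (d' g : ℝ) * (d' g : ℝ) ≤ ∑ g, (d g : ℝ) * (d g : ℝ) := by
    have : ((nrm d' : ℕ) : ℝ) ≤ ((nrm d : ℕ) : ℝ) := by exact_mod_cast h1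
    simpa [nrm, sq] using this
  have h4 : ∑ g, ((d g : ℝ) - (d' g : ℝ)) ^ 2 = ∑ g, (d g : ℝ) * (d g : ℝ) +
      ∑ g, (d' g : ℝ) * (d' g : ℝ) - 2 * ∑ g, (d g : ℝ) * (d' g : ℝ) := by
    rw [Finset.mul_sum, ← Finset.sum_add_distrib, ← Finset.sum_sub_distrib]
    apply Finset.sum_congr rfl
    intro g _
    ring
  have h5 : ∑ g, ((d g : ℝ) - (d' g : ℝ)) ^ 2 = 0 := by
    apply le_antisymm
    · rw [h4]; linarith
    · exact Finset.sum_nonneg fun g _ => sq_nonneg _
  rw [Finset.sum_eq_zero_iff_of_nonneg (fun g _ => sq_nonneg _)] at h5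
  funext g
  have h6 := h5 g (Finset.mem_univ g)
  have h7 : (d g : ℝ) - (d' g : ℝ) = 0 := by
    simpa using h6
  have h8 : (d' g : ℝ) = (d g : ℝ) := by linarith
  exact_mod_cast h8

lemma eq_of_add (d a b : G → ℕ) (ha : nrm a ≤ nrm d) (hb : nrm b ≤ nrm d)
    (h : a + b = d + d) : a = d := by
  apply eq_of_dot d a ha
  have h3 : ∑ g, (b g : ℝ) * (b g : ℝ) ≤ ∑ g, (d g : ℝ) * (d g : ℝ) := by
    have : ((nrm b : ℕ) : ℝ) ≤ ((nrm d : ℕ) : ℝ) := by exact_mod_cast hb
    simpa [nrm, sq] using this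
  have h4 : ∀ g, (b g : ℝ) = 2 * (d g : ℝ) - (a g : ℝ) := by
    intro g
    have := congrFun h g
    simp only [Pi.add_apply] at this
    have h5 : (a g : ℝ) + (b g : ℝ) = (d g : ℝ) + (d g : ℝ) := by exact_mod_cast this
    linarith
  have h5 : ∑ g, (b g : ℝ) * (b g : ℝ) = 4 * ∑ g, (d g : ℝ) * (d g : ℝ) -
      4 * ∑ g, (d g : ℝ) * (a g : ℝ) + ∑ g, (a g : ℝ) * (a g : ℝ) := by
    rw [Finset.mul_sum, Finset.mul_sum, ← Finset.sum_sub_distrib, ← Finset.sum_add_distrib]
    apply Finset.sum_congr rfl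
    intro g _
    rw [h4]
    ring
  have h6 : 0 ≤ ∑ g, ((d g : ℝ) - (a g : ℝ)) ^ 2 := Finset.sum_nonneg fun g _ => sq_nonneg _
  have h7 : ∑ g, ((d g : ℝ) - (a g : ℝ)) ^ 2 = ∑ g, (d g : ℝ) * (d g : ℝ) +
      ∑ g, (a g : ℝ) * (a g : ℝ) - 2 * ∑ g, (d g : ℝ) * (a g : ℝ) := by
    rw [Finset.mul_sum, ← Finset.sum_add_distrib, ← Finset.sum_sub_distrib]
    apply Finset.sum_congr rfl
    intro g _
    ring
  rw [h5] at h3
  rw [h7] at h6
  linarith

/-- the automorphism of order seven -/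
def sig : G ≃+ G where
  toFun x := (x.2.1, x.2.2, x.1 + x.2.1)
  invFun x := (x.2.2 + x.1, x.1, x.2.1)
  left_inv := by
    intro x
    revert x
    decide
  right_inv := by
    intro x
    revert x
    decide
  map_add' := by decide

lemma sig_decide : ∀ g : G, (g = 0 ∨ g = e3) → (sig g = 0 ∨ sig g = e3) → g = 0 := by decide

lemma exists_auto (g : G) (hg : g ≠ 0) : ∃ θ : G ≃+ G, θ g = e3 := by
  have step : ∀ x : G, (∃ θ : G ≃+ G, θ (sig x) = e3) → ∃ θ : G ≃+ G, θ x = e3 := by
    rintro x ⟨θ, hθ⟩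
    exact ⟨sig.trans θ, hθ⟩
  have h1 : ∃ θ : G ≃+ G, θ e3 = e3 := ⟨AddEquiv.refl G, rfl⟩
  have h2 : ∃ θ : G ≃+ G, θ ((1, 0, 0) : G) = e3 := step _ h1
  have h3 : ∃ θ : G ≃+ G, θ ((1, 1, 0) : G) = e3 := step _ h2
  have h4 : ∃ θ : G ≃+ G, θ ((1, 1, 1) : G) = e3 := step _ h3
  have h5 : ∃ θ : G ≃+ G, θ ((0, 1, 1) : G) = e3 := step _ h4
  have h6 : ∃ θ : G ≃+ G, θ ((1, 0, 1) : G) = e3 := step _ h5
  have h7 : ∃ θ : G ≃+ G, θ ((0, 1, 0) : G) = e3 := step _ h6
  have h8 : ∀ x : G, x ≠ 0 → x = e3 ∨ x = (1, 0, 0) ∨ x = (1, 1, 0) ∨ x = (1, 1, 1) ∨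
    x = (0, 1, 1) ∨ x = (1, 0, 1) ∨ x = (0, 1, 0) := by decide
  rcases h8 g hg with rfl | rfl | rfl | rfl | rfl | rfl | rfl
  · exact h1
  · exact h2
  · exact h3
  · exact h4
  · exact h5
  · exact h6
  · exact h7

end Run7.h322
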